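import Pool.Agent.Lib.MP_e55421_gt.Core

/-!
# The two convex bodies in the complex plane
-/

namespace MP_e55421_gt

open Set MeasureTheory

/-- The region `|Im z| ≤ G (β + σ Re z)` over the strip `0 ≤ β + σ Re z ≤ 1`. -/
def Reg (G : ℝ → ℝ) (β σ : ℝ) : Set ℂ :=
  {z | β + σ * z.re ∈ Icc (0:ℝ) 1 ∧ |z.im| ≤ G (β + σ * z.re)}

lemma reg_convex {G : ℝ → ℝ} (hc : ConcaveOn ℝ (Icc (0:ℝ) 1) G) (β σ : ℝ) :
    Convex ℝ (Reg G β σ) := by
  intro x hx y hy s t hs ht hst
  have e : β + σ * (s • x + t • y).re = s * (β + σ * x.re) + t * (β + σ * y.re) := by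
    simp only [Complex.add_re, Complex.real_smul, Complex.mul_re, Complex.ofReal_re,
      Complex.ofReal_im, zero_mul, sub_zero]
    linear_combination (-β) * hst
  have e2 : (s • x + t • y).im = s * x.im + t * y.im := by
    simp only [Complex.add_im, Complex.real_smul, Complex.mul_im, Complex.ofReal_re,
      Complex.ofReal_im, zero_mul, add_zero]
  refine ⟨?_, ?_⟩
  · rw [e]; exact (convex_Icc (0:ℝ) 1) hx.1 hy.1 hs ht hst
  · rw [e, e2]
    have h := hc.2 hx.1 hy.1 hs ht hst
    simp only [smul_eq_mul] at h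
    refine le_trans ?_ h
    calc |s * x.im + t * y.im| ≤ |s * x.im| + |t * y.im| := abs_add_le _ _
      _ = s * |x.im| + t * |y.im| := by rw [abs_mul, abs_mul, abs_of_nonneg hs, abs_of_nonneg ht]
      _ ≤ _ := add_le_add (mul_le_mul_of_nonneg_left hx.2 hs) (mul_le_mul_of_nonneg_left hy.2 ht)

lemma reg_closed {G : ℝ → ℝ} (hG : ContinuousOn G (Icc 0 1)) (β σ : ℝ) :
    IsClosed (Reg G β σ) := by
  have hw : Continuous (fun z : ℂ => β + σ * z.re) := by fun_prop
  have hA : IsClosed {z : ℂ | β + σ * z.re ∈ Icc (0:ℝ) 1} := isClosed_Icc.preimage hw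
  have hf : ContinuousOn (fun z : ℂ => G (β + σ * z.re) - |z.im|)
      {z : ℂ | β + σ * z.re ∈ Icc (0:ℝ) 1} := by
    refine ContinuousOn.sub (hG.comp hw.continuousOn (fun z hz => hz)) ?_
    exact (Complex.continuous_im.abs).continuousOn
  have h := hf.preimage_isClosed_of_isClosed hA (isClosed_Ici (a := (0:ℝ)))
  have e : Reg G β σ = {z : ℂ | β + σ * z.re ∈ Icc (0:ℝ) 1} ∩
      (fun z : ℂ => G (β + σ * z.re) - |z.im|) ⁻¹' Ici 0 := by
    ext z
    simp only [Reg, mem_ofPred_eq, mem_inter_iff, mem_preimage, mem_Ici, sub_nonneg]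
  rw [e]; exact h

lemma reg_compact {G : ℝ → ℝ} (hG : ContinuousOn G (Icc 0 1)) {β σ : ℝ} (hσ : |σ| = 1) :
    IsCompact (Reg G β σ) := by
  obtain ⟨M, hM⟩ := isCompact_Icc.exists_bound_of_continuousOn hG
  refine Metric.isCompact_of_isClosed_isBounded (reg_closed hG β σ) ?_
  refine (Metric.isBounded_closedBall (x := (0:ℂ)) (r := 1 + |β| + M)).subset ?_
  intro z hz
  rw [mem_closedBall_zero_iff]
  have h1 := Complex.norm_le_abs_re_add_abs_im z
  have h2 : |z.re| ≤ 1 + |β| := by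
    have : |z.re| = |σ * z.re| := by rw [abs_mul, hσ, one_mul]
    rw [this]
    have e : σ * z.re = (β + σ * z.re) - β := by ring
    rw [e]
    refine (abs_sub _ _).trans ?_
    have := hz.1
    rw [abs_of_nonneg this.1]
    linarith [this.2]
  have h3 : |z.im| ≤ M := by
    refine hz.2.trans ?_
    exact (le_abs_self _).trans (hM _ hz.1)
  linarith

lemma reg_interior {G : ℝ → ℝ} (hG : ContinuousOn G (Icc 0 1))
    (hpos : ∀ w ∈ Icc (0:ℝ) 1, 0 < G w) {β σ : ℝ} (hσ : |σ| = 1) :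
    (interior (Reg G β σ)).Nonempty := by
  obtain ⟨w0, hw0, hmin⟩ := isCompact_Icc.exists_isMinOn (nonempty_Icc.mpr zero_le_one) hG
  have hg : 0 < G w0 := hpos w0 hw0
  have hopen : IsOpen {z : ℂ | β + σ * z.re ∈ Ioo (0:ℝ) 1 ∧ |z.im| < G w0} := by
    have h1 : IsOpen {z : ℂ | β + σ * z.re ∈ Ioo (0:ℝ) 1} :=
      isOpen_Ioo.preimage (by fun_prop)
    have h2 : IsOpen {z : ℂ | |z.im| < G w0} :=
      isOpen_lt (Complex.continuous_im.abs) continuous_const
    exact h1.inter h2
  have hsub : {z : ℂ | β + σ * z.re ∈ Ioo (0:ℝ) 1 ∧ |z.im| < G w0} ⊆ Reg G β σ := by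
    rintro z ⟨h1, h2⟩
    refine ⟨Ioo_subset_Icc_self h1, h2.le.trans (hmin (Ioo_subset_Icc_self h1))⟩
  have hmem : (((1/2 - β) * σ : ℝ) : ℂ) ∈ {z : ℂ | β + σ * z.re ∈ Ioo (0:ℝ) 1 ∧ |z.im| < G w0} := by
    have hss : σ * σ = 1 := by rw [← abs_mul_abs_self, hσ, one_mul]
    have e : β + σ * ((1/2 - β) * σ) = 1/2 := by
      linear_combination (1/2 - β) * hss
    refine ⟨?_, ?_⟩
    · rw [Complex.ofReal_re, e]; constructor <;> norm_num
    · rw [Complex.ofReal_im]; simpa using hg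
  exact ⟨_, interior_maximal hsub hopen hmem⟩

/-- Chord function in the complex plane. -/
noncomputable def chordC (K : Set ℂ) (x : ℂ) (θ : ℝ) : ENNReal :=
  volume {t : ℝ | x + t * Complex.exp (θ * Complex.I) ∈ K}

lemma volume_affine {b g : ℝ} (hg : g ≠ 0) (S : Set ℝ) :
    volume ((fun t : ℝ => b + g * t) ⁻¹' S) = ENNReal.ofReal |g⁻¹| * volume S := by
  have e : (fun t : ℝ => b + g * t) ⁻¹' S = (fun t : ℝ => g * t) ⁻¹' ((fun t : ℝ => b + t) ⁻¹' S) := rfl
  rw [e, Real.volume_preimage_mul_left hg, measure_preimage_add]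

lemma chord_reg (G : ℝ → ℝ) {β σ : ℝ} (hσ : |σ| = 1) (p θ : ℝ) (hcos : Real.cos θ ≠ 0) :
    chordC (Reg G β σ) (p : ℂ) θ = ENNReal.ofReal |(Real.cos θ)⁻¹| *
      volume {w ∈ Icc (0:ℝ) 1 | |w - (β + σ * p)| * |Real.tan θ| ≤ G w} := by
  have hσ0 : σ ≠ 0 := by
    intro h; rw [h] at hσ; simp at hσ
  have hre : ∀ t : ℝ, ((p : ℂ) + t * Complex.exp (θ * Complex.I)).re = p + t * Real.cos θ := by
    intro t
    rw [Complex.exp_mul_I]
    simp [← Complex.ofReal_cos, ← Complex.ofReal_sin]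
  have him : ∀ t : ℝ, ((p : ℂ) + t * Complex.exp (θ * Complex.I)).im = t * Real.sin θ := by
    intro t
    rw [Complex.exp_mul_I]
    simp [← Complex.ofReal_cos, ← Complex.ofReal_sin]
  have e : {t : ℝ | (p : ℂ) + t * Complex.exp (θ * Complex.I) ∈ Reg G β σ} =
      (fun t : ℝ => (β + σ * p) + (σ * Real.cos θ) * t) ⁻¹'
        {w ∈ Icc (0:ℝ) 1 | |w - (β + σ * p)| * |Real.tan θ| ≤ G w} := by
    ext t
    simp only [Reg, mem_ofPred_eq, mem_preimage, hre, him]
    have e1 : β + σ * (p + t * Real.cos θ) = (β + σ * p) + (σ * Real.cos θ) * t := by ring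
    rw [e1]
    have e2 : |(β + σ * p) + (σ * Real.cos θ) * t - (β + σ * p)| * |Real.tan θ| =
        |t * Real.sin θ| := by
      rw [add_sub_cancel_left, abs_mul, abs_mul, hσ, one_mul, Real.tan_eq_sin_div_cos, abs_div,
        abs_mul]
      have : |Real.cos θ| ≠ 0 := abs_ne_zero.mpr hcos
      field_simp
    rw [e2]
  unfold chordC
  rw [e, volume_affine (mul_ne_zero hσ0 hcos)]
  congr 2
  rw [mul_inv, abs_mul, abs_inv, hσ, inv_one, one_mul]

lemma chord_reg_vert (G : ℝ → ℝ) {β σ : ℝ} (p θ : ℝ) (hcos : Real.cos θ = 0)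
    (hp : β + σ * p ∉ Icc (0:ℝ) 1) : chordC (Reg G β σ) (p : ℂ) θ = 0 := by
  have hre : ∀ t : ℝ, ((p : ℂ) + t * Complex.exp (θ * Complex.I)).re = p := by
    intro t
    rw [Complex.exp_mul_I]
    simp [← Complex.ofReal_cos, ← Complex.ofReal_sin, hcos]
  have e : {t : ℝ | (p : ℂ) + t * Complex.exp (θ * Complex.I) ∈ Reg G β σ} = ∅ := by
    rw [Set.eq_empty_iff_forall_notMem]
    rintro t ⟨h, _⟩
    rw [hre] at h
    exact hp h
  unfold chordC
  rw [e, measure_empty]

/-- The two bodies for the sources `-20` and `0`. -/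
theorem exists_pair : ∃ K L : Set ℂ,
    (IsCompact K ∧ Convex ℝ K ∧ (interior K).Nonempty) ∧
    (IsCompact L ∧ Convex ℝ L ∧ (interior L).Nonempty) ∧ K ≠ L ∧
    ∀ θ : ℝ, chordC K ((-20 : ℝ) : ℂ) θ = chordC L ((-20 : ℝ) : ℂ) θ ∧
      chordC K ((0 : ℝ) : ℂ) θ = chordC L ((0 : ℝ) : ℂ) θ := by
  obtain ⟨c, hc, B, hBc, hBconc, hBanti, hBpos, hB⟩ := core
  obtain ⟨hc1, hc2⟩ := hc
  set l : ℝ → ℝ := fun w => B w * (20 + c + w) with hl
  set s2 : ℝ → ℝ := fun w => (1 + w) * (20 + c + w) / (c + w) with hs2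
  set k : ℝ → ℝ := fun w => B w * s2 w with hk
  have hs2eq : ∀ w ∈ Icc (0:ℝ) 1, s2 w = 21 + w - 20 * (c - 1) * (1 / (c + w)) := by
    intro w hw
    have : c + w ≠ 0 := by linarith [hw.1]
    simp only [hs2]
    field_simp
    ring
  have hs2pos : ∀ w ∈ Icc (0:ℝ) 1, 0 < s2 w := by
    intro w hw
    have h1 : 0 < c + w := by linarith [hw.1]
    have h2 : 0 < 1 + w := by linarith [hw.1]
    have h3 : 0 < 20 + c + w := by linarith [hw.1]
    simp only [hs2]; positivity
  have hs2mono : MonotoneOn s2 (Icc (0:ℝ) 1) := by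
    intro x hx y hy hxy
    rw [hs2eq x hx, hs2eq y hy]
    have h1 : 1 / (c + y) ≤ 1 / (c + x) :=
      one_div_le_one_div_of_le (by linarith [hx.1]) (by linarith)
    have h2 : 20 * (c - 1) * (1 / (c + y)) ≤ 20 * (c - 1) * (1 / (c + x)) :=
      mul_le_mul_of_nonneg_left h1 (by linarith)
    linarith
  have hs2conc : ConcaveOn ℝ (Icc (0:ℝ) 1) s2 := by
    refine ⟨convex_Icc 0 1, ?_⟩
    intro x hx y hy s t hs ht hst
    have hm : s * x + t * y ∈ Icc (0:ℝ) 1 := (convex_Icc (0:ℝ) 1) hx hy hs ht hst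
    simp only [smul_eq_mul]
    rw [hs2eq x hx, hs2eq y hy, hs2eq _ hm]
    have e2 : s * (c + x) + t * (c + y) = c + (s * x + t * y) := by linear_combination c * hst
    have hcx : 0 < c + x := by linarith [hx.1]
    have hcy : 0 < c + y := by linarith [hy.1]
    have hcm : 0 < c + (s * x + t * y) := by linarith [hm.1]
    have g2 := inv_gap (s := s) (t := t) hcx hcy (by rw [e2]; exact hcm) hst
    rw [e2] at g2
    have hnn : 0 ≤ s * t * ((c + x) - (c + y)) ^ 2 / ((c + x) * (c + y) * (c + (s * x + t * y))) := by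
      positivity
    rw [← g2] at hnn
    have h3 := mul_nonneg (show (0:ℝ) ≤ 20 * (c - 1) by linarith) hnn
    have z1 : s * (21 + x - 20 * (c - 1) * (1 / (c + x))) + t * (21 + y - 20 * (c - 1) * (1 / (c + y)))
        = 21 * (s + t) + (s * x + t * y) - 20 * (c - 1) * (s / (c + x) + t / (c + y)) := by ring
    rw [z1, hst]
    linarith
  have hs2cont : ContinuousOn s2 (Icc 0 1) := by
    refine ContinuousOn.div (by fun_prop) (by fun_prop) ?_
    intro w hw
    have : 0 < c + w := by linarith [hw.1]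
    exact this.ne'
  have hlconc : ConcaveOn ℝ (Icc (0:ℝ) 1) l := by
    have h1 : ConcaveOn ℝ (Icc (0:ℝ) 1) (fun w => 20 + c + w) := by
      refine ⟨convex_Icc 0 1, ?_⟩
      intro x _ y _ s t _ _ hst
      simp only [smul_eq_mul]
      apply le_of_eq
      linear_combination (20 + c) * hst
    have h2 : MonotoneOn (fun w : ℝ => 20 + c + w) (Icc (0:ℝ) 1) := by
      intro x _ y _ hxy; simp only; linarith
    exact hBconc.mul h1 (fun w _ => (hBpos w).le) (fun w hw => by
      have := hw.1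
      linarith) (hBanti.antivaryOn h2)
  have hkconc : ConcaveOn ℝ (Icc (0:ℝ) 1) k :=
    hBconc.mul hs2conc (fun w _ => (hBpos w).le) (fun w hw => (hs2pos w hw).le)
      (hBanti.antivaryOn hs2mono)
  have hlcont : ContinuousOn l (Icc 0 1) := (hBc.mul (by fun_prop)).continuousOn
  have hkcont : ContinuousOn k (Icc 0 1) := hBc.continuousOn.mul hs2cont
  have hlpos : ∀ w ∈ Icc (0:ℝ) 1, 0 < l w := fun w hw =>
    mul_pos (hBpos w) (by linarith [hw.1])
  have hkpos : ∀ w ∈ Icc (0:ℝ) 1, 0 < k w := fun w hw => mul_pos (hBpos w) (hs2pos w hw)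
  have hσ1 : |(-1:ℝ)| = 1 := by norm_num
  have hσ2 : |(1:ℝ)| = 1 := by norm_num
  refine ⟨Reg k (-1) (-1), Reg l (-c) 1,
    ⟨reg_compact hkcont hσ1, reg_convex hkconc _ _, reg_interior hkcont hkpos hσ1⟩,
    ⟨reg_compact hlcont hσ2, reg_convex hlconc _ _, reg_interior hlcont hlpos hσ2⟩, ?_, ?_⟩
  · intro h
    have h1 : ((c : ℝ) : ℂ) ∈ Reg l (-c) 1 := by
      refine ⟨?_, ?_⟩
      · rw [Complex.ofReal_re]; constructor <;> linarith
      · rw [Complex.ofReal_im, abs_zero]
        apply le_of_lt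
        apply hlpos
        rw [Complex.ofReal_re]; constructor <;> linarith
    rw [← h] at h1
    have := h1.1.1
    rw [Complex.ofReal_re] at this
    linarith
  · intro θ
    by_cases hcos : Real.cos θ = 0
    · rw [chord_reg_vert k _ θ hcos (by intro h; have := h.2; linarith),
        chord_reg_vert l _ θ hcos (by intro h; have := h.1; linarith),
        chord_reg_vert k _ θ hcos (by intro h; have := h.1; linarith),
        chord_reg_vert l _ θ hcos (by intro h; have := h.1; linarith)]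
      exact ⟨rfl, rfl⟩
    · rw [chord_reg k hσ1 _ θ hcos, chord_reg l hσ2 _ θ hcos, chord_reg k hσ1 _ θ hcos,
        chord_reg l hσ2 _ θ hcos]
      constructor
      · congr 1
        have e1 : {w ∈ Icc (0:ℝ) 1 | |w - (-1 + -1 * (-20))| * |Real.tan θ| ≤ k w} =
            {w ∈ Icc (0:ℝ) 1 | |Real.tan θ| ≤ rfun c w * B w} := by
          ext w
          simp only [mem_ofPred_eq]
          refine and_congr_right (fun hw => ?_)
          have h1 : |w - (-1 + -1 * (-20))| = 19 - w := by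
            rw [abs_of_nonpos (by linarith [hw.2])]; ring
          have h2 : 0 < 19 - w := by linarith [hw.2]
          have h3 : 0 < c + w := by linarith [hw.1]
          have h4 : rfun c w * B w = k w / (19 - w) := by
            simp only [hk, hs2, rfun]
            field_simp
          rw [h1, h4, le_div_iff₀ h2, mul_comm]
        have e2 : {w ∈ Icc (0:ℝ) 1 | |w - (-c + 1 * (-20))| * |Real.tan θ| ≤ l w} =
            {w ∈ Icc (0:ℝ) 1 | |Real.tan θ| ≤ B w} := by
          ext w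
          simp only [mem_ofPred_eq]
          refine and_congr_right (fun hw => ?_)
          have h1 : |w - (-c + 1 * (-20))| = 20 + c + w := by
            rw [abs_of_nonneg (by linarith [hw.1])]; ring
          have h2 : 0 < 20 + c + w := by linarith [hw.1]
          rw [h1]
          simp only [hl]
          rw [mul_comm, mul_le_mul_iff_left₀ h2]
        rw [e1, e2, hB]
      · congr 2
        ext w
        simp only [mem_ofPred_eq]
        refine and_congr_right (fun hw => ?_)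
        have h1 : |w - (-1 + -1 * 0)| = 1 + w := by
          rw [abs_of_nonneg (by linarith [hw.1])]; ring
        have h2 : |w - (-c + 1 * 0)| = c + w := by
          rw [abs_of_nonneg (by linarith [hw.1])]; ring
        have h3 : 0 < c + w := by linarith [hw.1]
        have h4 : 0 < 1 + w := by linarith [hw.1]
        have h5 : k w = (1 + w) * (B w * (20 + c + w) / (c + w)) := by
          simp only [hk, hs2]; field_simp
        rw [h1, h2, h5, mul_le_mul_iff_right₀ h4, le_div_iff₀ h3, mul_comm (c + w)]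

end MP_e55421_gt
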