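import Pool.Agent.Lib.MP_e55421_gt.Defs

namespace Pool.Agent.Lib.MP_e55421_gt

open Set MeasureTheory

/-- supergradient inequality -/
theorem supergrad {c w M : ℝ} {h : ℝ → ℝ} (hc : 0 ≤ c) (hw : 0 < w) (hM : 0 ≤ M)
    (hL : ∀ x ∈ Icc (0:ℝ) w, ∀ y ∈ Icc (0:ℝ) w, x ≤ y → h y ≤ h x ∧ h x - h y ≤ M * (y - x))
    (hsc : SC c w h) : ∀ u₀ ∈ Icc (0:ℝ) w, ∃ s : ℝ, -M - c * w ≤ s ∧ s ≤ c * w ∧
      ∀ u ∈ Icc (0:ℝ) w, h u ≤ h u₀ + s * (u - u₀) - c / 2 * (u - u₀) ^ 2 := by
  intro u₀ hu₀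
  have hcw : 0 ≤ c * w := by positivity
  set H : ℝ → ℝ := fun u => h u + c / 2 * (u - u₀) ^ 2 with hH
  have hconc : ConcaveOn ℝ (Icc (0:ℝ) w) H := by
    refine ⟨convex_Icc _ _, ?_⟩
    intro x hx y hy a b ha hb hab
    have h1 := hsc x hx y hy a ⟨ha, by linarith⟩
    obtain rfl : b = 1 - a := by linarith
    simp only [smul_eq_mul, hH]
    nlinarith [h1]
  set S : Set ℝ := insert (-M - c * w) ((fun u => (H u - H u₀) / (u - u₀)) '' Ioc u₀ w) with hS
  have hbd : ∀ y ∈ S, y ≤ c * w := by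
    rintro y (rfl | ⟨u, hu, rfl⟩)
    · linarith
    · simp only
      rw [div_le_iff₀ (by linarith [hu.1])]
      have h1 := (hL u₀ hu₀ u ⟨by linarith [hu.1, hu₀.1], hu.2⟩ hu.1.le).1
      have h2 : 0 ≤ u - u₀ := by linarith [hu.1]
      have h3 : u - u₀ ≤ w := by linarith [hu.2, hu₀.1]
      simp only [hH, sub_self]
      nlinarith [mul_nonneg hc h2, mul_nonneg (mul_nonneg hc h2) (sub_nonneg.2 h3)]
  have hne : S.Nonempty := ⟨_, mem_insert _ _⟩
  have hba : BddAbove S := ⟨c * w, hbd⟩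
  refine ⟨sSup S, le_csSup hba (mem_insert _ _), csSup_le hne hbd, ?_⟩
  have key : ∀ u ∈ Icc (0:ℝ) w, H u ≤ H u₀ + sSup S * (u - u₀) := by
    intro u hu
    rcases lt_trichotomy u u₀ with hlt | rfl | hgt
    · have h0 : 0 < u₀ - u := by linarith
      have h1 : sSup S ≤ (H u₀ - H u) / (u₀ - u) := by
        refine csSup_le hne ?_
        rintro y (rfl | ⟨u', hu', rfl⟩)
        · rw [le_div_iff₀ h0]
          have h2 := (hL u hu u₀ hu₀ hlt.le).2
          have h3 : u₀ - u ≤ w := by linarith [hu.1, hu₀.2]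
          simp only [hH, sub_self]
          nlinarith [mul_nonneg hc h0.le, mul_nonneg (mul_nonneg hc h0.le) (sub_nonneg.2 h3)]
        · exact hconc.slope_anti_adjacent hu ⟨by linarith [hu'.1, hu₀.1], hu'.2⟩ hlt hu'.1
      rw [le_div_iff₀ h0] at h1
      linarith
    · simp
    · have h0 : 0 < u - u₀ := by linarith
      have h1 : (H u - H u₀) / (u - u₀) ≤ sSup S :=
        le_csSup hba (mem_insert_of_mem _ ⟨u, ⟨hgt, hu.2⟩, rfl⟩)
      rw [div_le_iff₀ h0] at h1
      linarith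
  intro u hu
  have h1 := key u hu
  simp only [hH, sub_self] at h1
  nlinarith [h1]

/-- concavity of the majorants -/
theorem conc_aux {a b : ℝ} {E E' E'' : ℝ → ℝ} (hE : ∀ u ∈ Icc a b, HasDerivAt E (E' u) u)
    (hE' : ∀ u ∈ Icc a b, HasDerivAt E' (E'' u) u) (s c u₀ h₀ : ℝ)
    (hneg : ∀ u ∈ Icc a b, E'' u + 2 * E' u * (s - c * (u - u₀)) +
      E u * ((s - c * (u - u₀)) ^ 2 - c) ≤ 0) :
    ConcaveOn ℝ (Icc a b)
      (fun u => E u * Real.exp (h₀ + s * (u - u₀) - c / 2 * (u - u₀) ^ 2)) := by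
  set q : ℝ → ℝ := fun u => h₀ + s * (u - u₀) - c / 2 * (u - u₀) ^ 2 with hq
  have hqd : ∀ u, HasDerivAt q (s - c * (u - u₀)) u := by
    intro u
    have h1 : HasDerivAt (fun u : ℝ => u - u₀) 1 u := (hasDerivAt_id u).sub_const u₀
    have h2 := ((h1.const_mul s).const_add h₀).sub ((h1.pow 2).const_mul (c / 2))
    refine h2.congr_deriv ?_
    simp only [Nat.cast_ofNat]
    ring
  have hq'd : ∀ u, HasDerivAt (fun u => s - c * (u - u₀)) (-c) u := by
    intro u
    have h1 : HasDerivAt (fun u : ℝ => u - u₀) 1 u := (hasDerivAt_id u).sub_const u₀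
    refine ((h1.const_mul c).const_sub s).congr_deriv ?_
    ring
  have hexp : ∀ u, HasDerivAt (fun u => Real.exp (q u)) (Real.exp (q u) * (s - c * (u - u₀))) u :=
    fun u => (hqd u).exp
  have hd1 : ∀ u ∈ Icc a b, HasDerivAt (fun u => E u * Real.exp (q u))
      ((E' u + E u * (s - c * (u - u₀))) * Real.exp (q u)) u := by
    intro u hu
    refine ((hE u hu).mul (hexp u)).congr_deriv ?_
    ring
  have hd2 : ∀ u ∈ Icc a b, HasDerivAt
      (fun u => (E' u + E u * (s - c * (u - u₀))) * Real.exp (q u))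
      ((E'' u + 2 * E' u * (s - c * (u - u₀)) + E u * ((s - c * (u - u₀)) ^ 2 - c)) *
        Real.exp (q u)) u := by
    intro u hu
    have h1 := ((hE' u hu).add ((hE u hu).mul (hq'd u))).mul (hexp u)
    refine h1.congr_deriv ?_
    simp only [Pi.mul_apply, Pi.add_apply]
    ring
  refine concaveOn_of_hasDerivWithinAt2_nonpos (convex_Icc a b)
    (fun u hu => (hd1 u hu).continuousAt.continuousWithinAt)
    (fun u hu => (hd1 u (interior_subset hu)).hasDerivWithinAt)
    (fun u hu => (hd2 u (interior_subset hu)).hasDerivWithinAt) ?_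
  intro u hu
  exact mul_nonpos_of_nonpos_of_nonneg (hneg u (interior_subset hu)) (Real.exp_pos _).le

/-- concavity from concave majorants -/
theorem conc_main {α : ℝ} {h E E' E'' : ℝ → ℝ}
    (hE : ∀ u ∈ Icc α (α + 1/20), HasDerivAt E (E' u) u)
    (hE' : ∀ u ∈ Icc α (α + 1/20), HasDerivAt E' (E'' u) u)
    (hpos : ∀ u ∈ Icc α (α + 1/20), 0 ≤ E u)
    (hneg : ∀ u ∈ Icc α (α + 1/20), ∀ p : ℝ, -(19202/100000) ≤ p → p ≤ 125/10000000 →
      E'' u + 2 * E' u * p + E u * (p ^ 2 - 1/8000) ≤ 0)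
    (hL : ∀ x ∈ Icc (0:ℝ) (1/20), ∀ y ∈ Icc (0:ℝ) (1/20), x ≤ y →
      h y ≤ h x ∧ h x - h y ≤ 24/125 * (y - x))
    (hsc : SC (1/8000) (1/20) h) :
    ConcaveOn ℝ (Icc α (α + 1/20)) (fun u => E u * Real.exp (h (u - α))) := by
  refine ⟨convex_Icc _ _, ?_⟩
  intro x hx y hy a b ha hb hab
  simp only [smul_eq_mul]
  set u₀ := a * x + b * y with hu₀
  have hu₀m : u₀ ∈ Icc α (α + 1/20) := (convex_Icc α (α + 1/20)) hx hy ha hb hab
  obtain ⟨s, hs1, hs2, hs⟩ := supergrad (by norm_num) (by norm_num) (by norm_num) hL hsc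
    (u₀ - α) ⟨by linarith [hu₀m.1], by linarith [hu₀m.2]⟩
  have hF := conc_aux hE hE' s (1/8000) u₀ (h (u₀ - α)) (by
    intro u hu
    refine hneg u hu _ ?_ ?_
    · have h1 : u - u₀ ≤ 1/20 := by linarith [hu.2, hu₀m.1]
      linarith
    · have h1 : -(1/20) ≤ u - u₀ := by linarith [hu.1, hu₀m.2]
      linarith)
  have h1 := hF.2 hx hy ha hb hab
  simp only [smul_eq_mul] at h1
  rw [← hu₀] at h1
  have h2 : ∀ u ∈ Icc α (α + 1/20), E u * Real.exp (h (u - α)) ≤
      E u * Real.exp (h (u₀ - α) + s * (u - u₀) - 1 / 8000 / 2 * (u - u₀) ^ 2) := by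
    intro u hu
    refine mul_le_mul_of_nonneg_left (Real.exp_le_exp.2 ?_) (hpos u hu)
    have h3 := hs (u - α) ⟨by linarith [hu.1], by linarith [hu.2]⟩
    rw [show u - α - (u₀ - α) = u - u₀ by ring] at h3
    exact h3
  have h3 := mul_le_mul_of_nonneg_left (h2 x hx) ha
  have h4 := mul_le_mul_of_nonneg_left (h2 y hy) hb
  have h5 : h (u₀ - α) + s * (u₀ - u₀) - 1 / 8000 / 2 * (u₀ - u₀) ^ 2 = h (u₀ - α) := by ring
  rw [h5] at h1
  linarith

/-- the profile of the first body is concave -/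
theorem concave_K {α : ℝ} (h1 : 10 - 1/20 ≤ α) (h2 : α ≤ 10) {h : ℝ → ℝ}
    (hL : ∀ x ∈ Icc (0:ℝ) (1/20), ∀ y ∈ Icc (0:ℝ) (1/20), x ≤ y →
      h y ≤ h x ∧ h x - h y ≤ 24/125 * (y - x))
    (hsc : SC (1/8000) (1/20) h) :
    ConcaveOn ℝ (Icc α (α + 1/20)) (fun u => u * Real.exp (h (u - α))) := by
  refine conc_main (E := fun u => u) (E' := fun _ => 1) (E'' := fun _ => 0)
    (fun u _ => hasDerivAt_id u) (fun u _ => hasDerivAt_const u 1)
    (fun u hu => by linarith [hu.1]) ?_ hL hsc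
  intro u hu p hp1 hp2
  have hu1 : 995/100 ≤ u := by linarith [hu.1]
  have hu2 : u ≤ 1005/100 := by linarith [hu.2]
  have h3 : (p + 19202/100000) * (125/10000000 - p) ≥ 0 :=
    mul_nonneg (by linarith) (by linarith)
  have h4 : 0 ≤ u * ((p + 19202/100000) * (125/10000000 - p)) := mul_nonneg (by linarith) h3
  have h5 : 0 ≤ (u - 995/100) * (p + 19202/100000) := mul_nonneg (by linarith) (by linarith)
  have h6 : 0 ≤ (1005/100 - u) * (p + 19202/100000) := mul_nonneg (by linarith) (by linarith)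
  have h7 : 0 ≤ (u - 995/100) * (125/10000000 - p) := mul_nonneg (by linarith) (by linarith)
  have h8 : 0 ≤ (1005/100 - u) * (125/10000000 - p) := mul_nonneg (by linarith) (by linarith)
  nlinarith [h4, h5, h6, h7, h8]

/-- the profile of the second body is concave -/
theorem concave_L {α : ℝ} (h1 : 10 - 1/20 ≤ α) (h2 : α ≤ 10) {h : ℝ → ℝ}
    (hL : ∀ x ∈ Icc (0:ℝ) (1/20), ∀ y ∈ Icc (0:ℝ) (1/20), x ≤ y →
      h y ≤ h x ∧ h x - h y ≤ 24/125 * (y - x))
    (hsc : SC (1/8000) (1/20) h) :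
    ConcaveOn ℝ (Icc α (α + 1/20)) (fun u => EL u * Real.exp (h (u - α))) := by
  have hne : ∀ u ∈ Icc α (α + 1/20), (220 - u) ≠ 0 := fun u hu => by linarith [hu.2]
  have hd : ∀ u, HasDerivAt (fun u : ℝ => 220 - u) (-1) u := fun u =>
    (hasDerivAt_id u).const_sub 220
  refine conc_main (E := EL) (E' := fun u => 4620 / (220 - u) ^ 2 + 1)
    (E'' := fun u => 9240 / (220 - u) ^ 3) ?_ ?_ ?_ ?_ hL hsc
  · intro u hu
    unfold EL
    have h3 := (((hasDerivAt_id u).mul ((hasDerivAt_id u).const_sub 241)).div (hd u) (hne u hu))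
    refine h3.congr_deriv ?_
    have := hne u hu
    simp only [id, Pi.mul_apply]
    field_simp
    ring
  · intro u hu
    have h3 := ((((hd u).pow 2).inv (pow_ne_zero 2 (hne u hu))).const_mul 4620).add_const 1
    have h4 : (fun u : ℝ => 4620 / (220 - u) ^ 2 + 1) =
        fun u : ℝ => 4620 * ((fun u : ℝ => 220 - u) ^ 2)⁻¹ u + 1 := by
      ext u; simp [div_eq_mul_inv]
    rw [h4]
    refine h3.congr_deriv ?_
    have := hne u hu
    simp only [Pi.pow_apply]
    field_simp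
    ring
  · intro u hu
    unfold EL
    have h3 : 0 < 220 - u := by linarith [hu.2]
    have h4 : 0 ≤ u := by linarith [hu.1]
    have h5 : 0 ≤ 241 - u := by linarith [hu.2]
    positivity
  · intro u hu p hp1 hp2
    have hu1 : 995/100 ≤ u := by linarith [hu.1]
    have hu2 : u ≤ 1005/100 := by linarith [hu.2]
    have hv1 : 20995/100 ≤ 220 - u := by linarith
    have hv2 : 220 - u ≤ 21005/100 := by linarith
    have hv0 : 0 < 220 - u := by linarith
    have hA1 : 9240 / (220 - u) ^ 3 ≤ 1/1000 := by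
      rw [div_le_iff₀ (by positivity)]
      have : (20995/100 : ℝ) ^ 3 ≤ (220 - u) ^ 3 := by gcongr
      norm_num at this
      linarith
    have hB1 : 1104/1000 ≤ 4620 / (220 - u) ^ 2 + 1 := by
      have h4 : 104/1000 ≤ 4620 / (220 - u) ^ 2 := by
        rw [le_div_iff₀ (by positivity)]
        have : (220 - u) ^ 2 ≤ (21005/100 : ℝ) ^ 2 := by gcongr
        norm_num at this
        linarith
      linarith
    have hB2 : 4620 / (220 - u) ^ 2 + 1 ≤ 1106/1000 := by
      have h4 : 4620 / (220 - u) ^ 2 ≤ 106/1000 := by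
        rw [div_le_iff₀ (by positivity)]
        have : (20995/100 : ℝ) ^ 2 ≤ (220 - u) ^ 2 := by gcongr
        norm_num at this
        linarith
      linarith
    have hC1 : 109/10 ≤ EL u := by
      unfold EL
      rw [le_div_iff₀ hv0]
      nlinarith
    have hC2 : EL u ≤ 111/10 := by
      unfold EL
      rw [div_le_iff₀ hv0]
      nlinarith
    set e2 := 9240 / (220 - u) ^ 3
    set e1 := 4620 / (220 - u) ^ 2 + 1
    set e0 := EL u
    have h4 : 0 ≤ e0 * ((p + 19202/100000) * (125/10000000 - p)) :=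
      mul_nonneg (by linarith) (mul_nonneg (by linarith) (by linarith))
    have h5 : 0 ≤ (e0 - 109/10) * (p + 19202/100000) := mul_nonneg (by linarith) (by linarith)
    have h6 : 0 ≤ (111/10 - e0) * (p + 19202/100000) := mul_nonneg (by linarith) (by linarith)
    have h7 : 0 ≤ (e0 - 109/10) * (125/10000000 - p) := mul_nonneg (by linarith) (by linarith)
    have h8 : 0 ≤ (111/10 - e0) * (125/10000000 - p) := mul_nonneg (by linarith) (by linarith)
    have h9 : 0 ≤ (e1 - 1104/1000) * (125/10000000 - p) := mul_nonneg (by linarith) (by linarith)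
    have h10 : 0 ≤ (1106/1000 - e1) * (p + 19202/100000) := mul_nonneg (by linarith) (by linarith)
    have h11 : 0 ≤ (1106/1000 - e1) * (125/10000000 - p) := mul_nonneg (by linarith) (by linarith)
    have h12 : 0 ≤ (e1 - 1104/1000) * (p + 19202/100000) := mul_nonneg (by linarith) (by linarith)
    nlinarith [h4, h5, h6, h7, h8, h9, h10, h11, h12]

end Pool.Agent.Lib.MP_e55421_gt
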