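import Pool.Agent.Lib.MP_e55421_gt.Fixed

/-!
# The profile: a positive concave decreasing function `B` on `[0,1]` equimeasurable with `r B`
-/

namespace MP_e55421_gt

open Set MeasureTheory
open scoped BoundedContinuousFunction

/-- The ratio of the two profiles seen from the far source. -/
noncomputable def rfun (c w : ℝ) : ℝ := (1 + w) * (20 + c + w) / ((19 - w) * (c + w))

lemma rfun_pos {c w : ℝ} (hc : 1 ≤ c) (hw : w ∈ Icc (0:ℝ) 1) : 0 < rfun c w := by
  obtain ⟨h0, h1⟩ := hw
  unfold rfun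
  have : 0 < 19 - w := by linarith
  have : 0 < c + w := by linarith
  positivity

lemma rfun_mono {c : ℝ} (hc : 1 ≤ c) {x y : ℝ} (hx : x ∈ Icc (0:ℝ) 1) (hy : y ∈ Icc (0:ℝ) 1)
    (h : x ≤ y) : rfun c x ≤ rfun c y := by
  obtain ⟨h0, h1⟩ := hx
  obtain ⟨h2, h3⟩ := hy
  have e : ∀ w, rfun c w = ((1 + w) / (c + w)) * ((20 + c + w) / (19 - w)) := by
    intro w; unfold rfun; rw [div_mul_div_comm, mul_comm (19 - w)]
  rw [e, e]
  have a1 : (0:ℝ) < 19 - x := by linarith
  have a2 : (0:ℝ) < 19 - y := by linarith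
  have a3 : (0:ℝ) < c + x := by linarith
  have a4 : (0:ℝ) < c + y := by linarith
  apply mul_le_mul
  · rw [div_le_div_iff₀ a3 a4]; nlinarith
  · apply div_le_div₀ <;> linarith
  · positivity
  · positivity

lemma inv_gap {a b s t : ℝ} (ha : 0 < a) (hb : 0 < b) (hm : 0 < s * a + t * b) (hst : s + t = 1) :
    s / a + t / b - 1 / (s * a + t * b) = s * t * (a - b) ^ 2 / (a * b * (s * a + t * b)) := by
  have ht : t = 1 - s := by linarith
  subst ht
  field_simp
  ring

lemma rfun_eq {c w : ℝ} (hc : 1 ≤ c) (hw : w ∈ Icc (0:ℝ) 1) :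
    rfun c w = -1 + 20 * (39 + c) / (19 + c) * (1 / (19 - w)) -
      20 * (c - 1) / (19 + c) * (1 / (c + w)) := by
  obtain ⟨h0, h1⟩ := hw
  unfold rfun
  have h2 : 19 - w ≠ 0 := by linarith
  have h3 : c + w ≠ 0 := by linarith
  have h4 : 19 + c ≠ 0 := by linarith
  field_simp
  ring

lemma rfun_concave {c : ℝ} (hc : c ∈ Icc (10/9:ℝ) (3/2)) :
    ConcaveOn ℝ (Icc (0:ℝ) 1) (rfun c) := by
  obtain ⟨hc1, hc2⟩ := hc
  have hc0 : (1:ℝ) ≤ c := by linarith
  refine ⟨convex_Icc 0 1, ?_⟩
  intro x hx y hy s t hs ht hst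
  have hm : s * x + t * y ∈ Icc (0:ℝ) 1 := (convex_Icc (0:ℝ) 1) hx hy hs ht hst
  simp only [smul_eq_mul]
  rw [rfun_eq hc0 hx, rfun_eq hc0 hy, rfun_eq hc0 hm]
  obtain ⟨x0, x1⟩ := hx
  obtain ⟨y0, y1⟩ := hy
  obtain ⟨m0, m1⟩ := hm
  set m := s * x + t * y with hmdef
  set P := 20 * (39 + c) / (19 + c) with hP
  set Q := 20 * (c - 1) / (19 + c) with hQ
  have e1 : s * (19 - x) + t * (19 - y) = 19 - m := by rw [hmdef]; linear_combination 19 * hst
  have e2 : s * (c + x) + t * (c + y) = c + m := by rw [hmdef]; linear_combination c * hst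
  have g1 := inv_gap (s := s) (t := t) (show 0 < 19 - x by linarith) (show 0 < 19 - y by linarith)
    (by rw [e1]; linarith) hst
  have g2 := inv_gap (s := s) (t := t) (show 0 < c + x by linarith) (show 0 < c + y by linarith)
    (by rw [e2]; linarith) hst
  rw [e1] at g1
  rw [e2] at g2
  have hP0 : 0 ≤ P := by rw [hP]; positivity
  have hQ0 : 0 ≤ Q := by rw [hQ]; apply div_nonneg <;> linarith
  have b1 : s * t * ((19 - x) - (19 - y)) ^ 2 / ((19 - x) * (19 - y) * (19 - m)) ≤
      s * t * (x - y) ^ 2 / 5832 := by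
    have : ((19 - x) - (19 - y)) ^ 2 = (x - y) ^ 2 := by ring
    rw [this]
    apply div_le_div_of_nonneg_left (by positivity) (by norm_num)
    have q1 : (18:ℝ) * 18 ≤ (19 - x) * (19 - y) := by
      apply mul_le_mul <;> linarith
    have q2 : (18:ℝ) * 18 * 18 ≤ (19 - x) * (19 - y) * (19 - m) := by
      apply mul_le_mul <;> linarith
    linarith
  have b2 : s * t * (x - y) ^ 2 / (c + 1) ^ 3 ≤
      s * t * ((c + x) - (c + y)) ^ 2 / ((c + x) * (c + y) * (c + m)) := by
    have : ((c + x) - (c + y)) ^ 2 = (x - y) ^ 2 := by ring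
    rw [this]
    have h1 : 0 < c + x := by linarith
    have h2 : 0 < c + y := by linarith
    have h3 : 0 < c + m := by linarith
    apply div_le_div_of_nonneg_left (by positivity) (by positivity)
    have q1 : (c + x) * (c + y) ≤ (c + 1) * (c + 1) := by
      apply mul_le_mul <;> linarith
    have q2 : (c + x) * (c + y) * (c + m) ≤ (c + 1) * (c + 1) * (c + 1) := by
      apply mul_le_mul <;> first | linarith | positivity
    linarith [show (c + 1) ^ 3 = (c + 1) * (c + 1) * (c + 1) by ring]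
  have hPQ : P / 5832 ≤ Q / (c + 1) ^ 3 := by
    rw [div_le_div_iff₀ (by norm_num) (by positivity), hP, hQ, div_mul_eq_mul_div,
      div_mul_eq_mul_div]
    apply div_le_div_of_nonneg_right _ (by linarith)
    have q3 : (c + 1) ^ 3 ≤ (5/2:ℝ) ^ 3 := pow_le_pow_left₀ (by linarith) (by linarith) 3
    have q4 : (39 + c) * (c + 1) ^ 3 ≤ (81/2) * (5/2:ℝ) ^ 3 := by
      apply mul_le_mul (by linarith) q3 (by positivity) (by norm_num)
    nlinarith
  have k1 : P * (s / (19 - x) + t / (19 - y) - 1 / (19 - m)) ≤ P * (s * t * (x - y) ^ 2 / 5832) := by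
    rw [g1]; exact mul_le_mul_of_nonneg_left b1 hP0
  have k2 : Q * (s * t * (x - y) ^ 2 / (c + 1) ^ 3) ≤ Q * (s / (c + x) + t / (c + y) - 1 / (c + m)) := by
    rw [g2]; exact mul_le_mul_of_nonneg_left b2 hQ0
  have k3 : P * (s * t * (x - y) ^ 2 / 5832) ≤ Q * (s * t * (x - y) ^ 2 / (c + 1) ^ 3) := by
    have h := mul_le_mul_of_nonneg_left hPQ (show 0 ≤ s * t * (x - y) ^ 2 by positivity)
    calc P * (s * t * (x - y) ^ 2 / 5832) = s * t * (x - y) ^ 2 * (P / 5832) := by ring
      _ ≤ s * t * (x - y) ^ 2 * (Q / (c + 1) ^ 3) := h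
      _ = _ := by ring
  have k4 := (k1.trans k3).trans k2
  have z1 : s * (-1 + P * (1 / (19 - x)) - Q * (1 / (c + x))) +
      t * (-1 + P * (1 / (19 - y)) - Q * (1 / (c + y))) =
      -(s + t) + P * (s / (19 - x) + t / (19 - y)) - Q * (s / (c + x) + t / (c + y)) := by
    ring
  rw [z1, hst]
  linarith

/-- `ρ = -log r`. -/
noncomputable def rho (c w : ℝ) : ℝ := -Real.log (rfun c w)

lemma rho_cont2 : Continuous (fun z : ℝ × ℝ => rho (max z.1 1) (max 0 (min z.2 1))) := by
  unfold rho rfun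
  refine Continuous.neg (Continuous.log (Continuous.div (by fun_prop) (by fun_prop) ?_) ?_)
  · intro z
    have h1 : (1:ℝ) ≤ max z.1 1 := le_max_right _ _
    have h2 : (0:ℝ) ≤ max 0 (min z.2 1) := le_max_left _ _
    have h3 : max 0 (min z.2 1) ≤ (1:ℝ) := max_le zero_le_one (min_le_right _ _)
    have : (19 - max 0 (min z.2 1)) * (max z.1 1 + max 0 (min z.2 1)) > 0 := by
      apply mul_pos <;> linarith
    exact this.ne'
  · intro z
    have h1 : (1:ℝ) ≤ max z.1 1 := le_max_right _ _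
    have h2 : (0:ℝ) ≤ max 0 (min z.2 1) := le_max_left _ _
    have h3 : max 0 (min z.2 1) ≤ (1:ℝ) := max_le zero_le_one (min_le_right _ _)
    exact (rfun_pos h1 ⟨h2, h3⟩).ne'

lemma rho_contOn {c : ℝ} (hc : 1 ≤ c) : ContinuousOn (rho c) (Icc 0 1) := by
  have h := rho_cont2.comp (continuous_const.prodMk continuous_id : Continuous (fun w : ℝ => (c, w)))
  refine h.continuousOn.congr ?_
  intro w hw
  simp only [Function.comp]
  rw [max_eq_left hc, min_eq_left hw.2, max_eq_right hw.1]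

lemma exists_c : ∃ c ∈ Icc (10/9:ℝ) (3/2), ∫ w in Icc (0:ℝ) 1, rho c w = 0 := by
  have hcont : Continuous (fun c : ℝ => ∫ w in Icc (0:ℝ) 1, rho (max c 1) (max 0 (min w 1))) :=
    continuous_parametric_integral_of_continuous
      (f := fun c w => rho (max c 1) (max 0 (min w 1))) rho_cont2 isCompact_Icc
  have heq : ∀ c : ℝ, 1 ≤ c → ∫ w in Icc (0:ℝ) 1, rho (max c 1) (max 0 (min w 1)) =
      ∫ w in Icc (0:ℝ) 1, rho c w := by
    intro c hc
    apply setIntegral_congr_fun measurableSet_Icc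
    intro w hw
    simp only
    rw [max_eq_left hc, min_eq_left hw.2, max_eq_right hw.1]
  have hlo : ∫ w in Icc (0:ℝ) 1, rho (10/9) w ≤ 0 := by
    apply setIntegral_nonpos measurableSet_Icc
    intro w hw
    unfold rho
    have h0 : rfun (10/9) 0 = 1 := by unfold rfun; norm_num
    have h1 : (1:ℝ) ≤ rfun (10/9) w := by
      rw [← h0]; exact rfun_mono (by norm_num) ⟨le_rfl, zero_le_one⟩ hw hw.1
    have := Real.log_nonneg h1
    linarith
  have hhi : 0 ≤ ∫ w in Icc (0:ℝ) 1, rho (3/2) w := by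
    apply setIntegral_nonneg measurableSet_Icc
    intro w hw
    unfold rho
    have h0 : rfun (3/2) 1 = 1 := by unfold rfun; norm_num
    have h1 : rfun (3/2) w ≤ 1 := by
      rw [← h0]; exact rfun_mono (by norm_num) hw ⟨zero_le_one, le_rfl⟩ hw.2
    have := Real.log_nonpos (rfun_pos (by norm_num) hw).le h1
    linarith
  have hivt := intermediate_value_Icc (show (10/9:ℝ) ≤ 3/2 by norm_num) hcont.continuousOn
  have h0 : (0:ℝ) ∈ Icc (∫ w in Icc (0:ℝ) 1, rho (max (10/9) 1) (max 0 (min w 1)))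
      (∫ w in Icc (0:ℝ) 1, rho (max (3/2) 1) (max 0 (min w 1))) := by
    rw [heq _ (by norm_num), heq _ (by norm_num)]
    exact ⟨hlo, hhi⟩
  obtain ⟨c, hc, h⟩ := hivt h0
  refine ⟨c, hc, ?_⟩
  rw [← heq c (by linarith [hc.1])]
  exact h

lemma log_diff_le {a b : ℝ} (ha : 1 ≤ a) (hab : a ≤ b) : Real.log b - Real.log a ≤ b - a := by
  have ha0 : 0 < a := by linarith
  have hb0 : 0 < b := by linarith
  rw [← Real.log_div hb0.ne' ha0.ne']
  have h := Real.log_le_sub_one_of_pos (show 0 < b / a by positivity)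
  have h2 : b / a - 1 ≤ b - a := by
    rw [div_sub_one ha0.ne', div_le_iff₀ ha0]
    nlinarith
  linarith

lemma rho_ok {c : ℝ} (hc : c ∈ Icc (10/9:ℝ) (3/2)) (hi : ∫ w in Icc (0:ℝ) 1, rho c w = 0) :
    RhoOK (rho c) 3 := by
  have hc1 : (1:ℝ) ≤ c := by linarith [hc.1]
  refine ⟨rho_contOn hc1, ?_, ?_, hi⟩
  · intro x hx y hy hxy
    have hm := rfun_mono hc1 hx hy hxy
    have hpx := rfun_pos hc1 hx
    have hpy := rfun_pos hc1 hy
    unfold rho
    constructor
    · have := Real.log_le_log hpx hm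
      linarith
    · have e : ∀ w ∈ Icc (0:ℝ) 1, Real.log (rfun c w) = Real.log (1 + w) + Real.log (20 + c + w) -
          (Real.log (19 - w) + Real.log (c + w)) := by
        intro w hw
        have h1 : (0:ℝ) < 1 + w := by linarith [hw.1]
        have h2 : (0:ℝ) < 20 + c + w := by linarith [hw.1]
        have h3 : (0:ℝ) < 19 - w := by linarith [hw.2]
        have h4 : (0:ℝ) < c + w := by linarith [hw.1]
        unfold rfun
        rw [Real.log_div (by positivity) (by positivity), Real.log_mul h1.ne' h2.ne',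
          Real.log_mul h3.ne' h4.ne']
      rw [e x hx, e y hy]
      have l1 := log_diff_le (show 1 ≤ 1 + x by linarith [hx.1]) (show 1 + x ≤ 1 + y by linarith)
      have l2 := log_diff_le (show 1 ≤ 20 + c + x by linarith [hx.1])
        (show 20 + c + x ≤ 20 + c + y by linarith)
      have l3 := log_diff_le (show 1 ≤ 19 - y by linarith [hy.2]) (show 19 - y ≤ 19 - x by linarith)
      have l4 : Real.log (c + x) ≤ Real.log (c + y) :=
        Real.log_le_log (by linarith [hx.1]) (by linarith)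
      linarith
  · have h := rfun_concave hc
    refine h.congr ?_
    intro w hw
    show rfun c w = Real.exp (- -Real.log (rfun c w))
    rw [neg_neg, Real.exp_log (rfun_pos hc1 hw)]

/-- The profile. -/
theorem core : ∃ c ∈ Icc (10/9:ℝ) (3/2), ∃ B : ℝ → ℝ, Continuous B ∧
    ConcaveOn ℝ (Icc (0:ℝ) 1) B ∧ AntitoneOn B (Icc (0:ℝ) 1) ∧ (∀ w, 0 < B w) ∧
    ∀ m : ℝ, volume {w ∈ Icc (0:ℝ) 1 | m ≤ B w} =
      volume {w ∈ Icc (0:ℝ) 1 | m ≤ rfun c w * B w} := by
  obtain ⟨c, hc, hi⟩ := exists_c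
  have hc1 : (1:ℝ) ≤ c := by linarith [hc.1]
  have hρ := rho_ok hc hi
  obtain ⟨f, hf, hfix⟩ := exists_fixed hρ (by norm_num)
  refine ⟨c, hc, fun w => Real.exp (ext f w), Real.continuous_exp.comp (ext_cont f),
    cls_concave hf, ?_, fun w => Real.exp_pos _, ?_⟩
  · intro x hx y hy hxy
    exact Real.exp_le_exp.mpr (by linarith [(cls_slope hf hx hy hxy).1])
  · intro m
    by_cases hm : 0 < m
    · have h := rearr_level (α := fun x => ext f x - rho c x)
        ((ext_cont f).continuousOn.sub hρ.cont) (Real.log m) (alpha_level hρ hf _)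
      have e1 : {w ∈ Icc (0:ℝ) 1 | Real.log m ≤ rearr (fun x => ext f x - rho c x) w} =
          {w ∈ Icc (0:ℝ) 1 | m ≤ Real.exp (ext f w)} := by
        ext w
        simp only [mem_ofPred_eq]
        refine and_congr_right (fun hw => ?_)
        rw [← ext_opT hρ.cont f hw, hfix, Real.log_le_iff_le_exp hm]
      have e2 : {w ∈ Icc (0:ℝ) 1 | Real.log m ≤ (fun x => ext f x - rho c x) w} =
          {w ∈ Icc (0:ℝ) 1 | m ≤ rfun c w * Real.exp (ext f w)} := by
        ext w
        simp only [mem_ofPred_eq]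
        refine and_congr_right (fun hw => ?_)
        rw [Real.log_le_iff_le_exp hm]
        unfold rho
        rw [sub_neg_eq_add, Real.exp_add, Real.exp_log (rfun_pos hc1 hw), mul_comm]
      rw [e1] at h
      rw [h]
      rw [← e2]
    · push Not at hm
      have e1 : {w ∈ Icc (0:ℝ) 1 | m ≤ Real.exp (ext f w)} = Icc 0 1 := by
        ext w
        simp only [mem_ofPred_eq, and_iff_left_iff_imp]
        intro _
        exact hm.trans (Real.exp_pos _).le
      have e2 : {w ∈ Icc (0:ℝ) 1 | m ≤ rfun c w * Real.exp (ext f w)} = Icc 0 1 := by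
        ext w
        simp only [mem_ofPred_eq, and_iff_left_iff_imp]
        intro hw
        exact hm.trans (mul_pos (rfun_pos hc1 hw) (Real.exp_pos _)).le
      rw [e1, e2]

end MP_e55421_gt
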