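import Mathlib

/-! Definitions shared by the files for MP_e55421_gt (point-source x-rays). -/

namespace Pool.Agent.Lib.MP_e55421_gt

open Set MeasureTheory

/-- `κ`-strong concavity of `g` on `[0,w]`, written out. -/
def SC (κ w : ℝ) (g : ℝ → ℝ) : Prop :=
  ∀ x ∈ Icc (0:ℝ) w, ∀ y ∈ Icc (0:ℝ) w, ∀ t ∈ Icc (0:ℝ) 1,
    t * g x + (1 - t) * g y + κ / 2 * (t * (1 - t)) * (x - y) ^ 2 ≤ g (t * x + (1 - t) * y)

/-- The rearrangement operator: for `m ∈ [0,w]`, `RR w g m` is the supremum over the subintervals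
`[z, z+m]` of `[0,w]` of the smaller of the two end values of `g` (here `z = t * (w - m)`). -/
noncomputable def RR (w : ℝ) (g : ℝ → ℝ) (m : ℝ) : ℝ :=
  sSup ((fun t : ℝ => min (g (t * (w - m))) (g (t * (w - m) + m))) '' Icc (0:ℝ) 1)

/-- The function `ν`. -/
noncomputable def nu (u : ℝ) : ℝ :=
  Real.log u + Real.log (241 - u) - Real.log (220 - u) - Real.log (21 - u)

/-- The profile of the second body without the exponential factor. -/
noncomputable def EL (u : ℝ) : ℝ := u * (241 - u) / (220 - u)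

end Pool.Agent.Lib.MP_e55421_gt
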