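import Pool.Agent.Lib.MP_e55421_gt.Rearr

/-!
# A fixed point of `φ ↦ (φ - ρ)^*`
-/

namespace MP_e55421_gt

open Set MeasureTheory
open scoped BoundedContinuousFunction

lemma rearr_contOn {α : ℝ → ℝ} (hα : ContinuousOn α (Icc 0 1)) :
    ContinuousOn (rearr α) (Icc 0 1) := by
  have hu : UniformContinuousOn α (Icc 0 1) := isCompact_Icc.uniformContinuousOn_of_continuous hα
  rw [Metric.continuousOn_iff]
  rw [Metric.uniformContinuousOn_iff] at hu
  intro b hb ε hε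
  obtain ⟨δ, hδ, h⟩ := hu (ε / 2) (by positivity)
  refine ⟨δ / 2, by positivity, fun a ha hab => ?_⟩
  have := rearr_modulus hα (δ := δ / 2) (ε := ε / 2) (fun x hx y hy hxy => by
    have := h x hx y hy (by rw [Real.dist_eq]; linarith)
    rw [Real.dist_eq] at this; exact this.le) ha hb (by rw [Real.dist_eq] at hab; exact hab.le)
  rw [Real.dist_eq]; linarith

lemma rearr_integral {α : ℝ → ℝ} (hα : ContinuousOn α (Icc 0 1))
    (hconv : ∀ ℓ : ℝ, Convex ℝ {x ∈ Icc (0:ℝ) 1 | ℓ ≤ α x}) :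
    ∫ x in Icc (0:ℝ) 1, rearr α x = ∫ x in Icc (0:ℝ) 1, α x := by
  have m1 : AEMeasurable α (volume.restrict (Icc (0:ℝ) 1)) := hα.aemeasurable measurableSet_Icc
  have m2 : AEMeasurable (rearr α) (volume.restrict (Icc (0:ℝ) 1)) :=
    (rearr_contOn hα).aemeasurable measurableSet_Icc
  have hmap : Measure.map (rearr α) (volume.restrict (Icc (0:ℝ) 1)) =
      Measure.map α (volume.restrict (Icc (0:ℝ) 1)) := by
    have : IsFiniteMeasure (Measure.map (rearr α) (volume.restrict (Icc (0:ℝ) 1))) :=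
      inferInstance
    apply Measure.ext_of_Ici
    intro ℓ
    rw [Measure.map_apply_of_aemeasurable m2 measurableSet_Ici,
      Measure.map_apply_of_aemeasurable m1 measurableSet_Ici]
    have e1 : (volume.restrict (Icc (0:ℝ) 1)) (rearr α ⁻¹' Ici ℓ) =
        volume {w ∈ Icc (0:ℝ) 1 | ℓ ≤ rearr α w} := by
      rw [Measure.restrict_apply' measurableSet_Icc]
      congr 1
      ext x; simp [and_comm]
    have e2 : (volume.restrict (Icc (0:ℝ) 1)) (α ⁻¹' Ici ℓ) =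
        volume {w ∈ Icc (0:ℝ) 1 | ℓ ≤ α w} := by
      rw [Measure.restrict_apply' measurableSet_Icc]
      congr 1
      ext x; simp [and_comm]
    rw [e1, e2, rearr_level hα ℓ (hconv ℓ)]
  have i1 := integral_map m2 (f := fun y : ℝ => y) (by fun_prop)
  have i2 := integral_map m1 (f := fun y : ℝ => y) (by fun_prop)
  rw [hmap] at i1
  rw [← i1, i2]

/-- extension to the line -/
noncomputable def ext (f : (Icc (0:ℝ) 1) →ᵇ ℝ) : ℝ → ℝ := fun x => f (projIcc 0 1 zero_le_one x)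

lemma ext_cont (f : (Icc (0:ℝ) 1) →ᵇ ℝ) : Continuous (ext f) :=
  f.continuous.comp continuous_projIcc

lemma ext_apply (f : (Icc (0:ℝ) 1) →ᵇ ℝ) {x : ℝ} (hx : x ∈ Icc (0:ℝ) 1) : ext f x = f ⟨x, hx⟩ := by
  unfold ext
  rw [projIcc_of_mem zero_le_one hx]

/-- the operator -/
noncomputable def opT (ρ : ℝ → ℝ) (hρ : ContinuousOn ρ (Icc 0 1)) (f : (Icc (0:ℝ) 1) →ᵇ ℝ) :
    (Icc (0:ℝ) 1) →ᵇ ℝ :=
  BoundedContinuousFunction.mkOfCompact
    ⟨fun w : Icc (0:ℝ) 1 => rearr (fun x => ext f x - ρ x) w,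
      continuousOn_iff_continuous_domRestrict.mp
        (rearr_contOn ((ext_cont f).continuousOn.sub hρ))⟩

lemma opT_apply {ρ : ℝ → ℝ} (hρ : ContinuousOn ρ (Icc 0 1)) (f : (Icc (0:ℝ) 1) →ᵇ ℝ)
    (w : Icc (0:ℝ) 1) : opT ρ hρ f w = rearr (fun x => ext f x - ρ x) w := rfl

lemma opT_dist {ρ : ℝ → ℝ} (hρ : ContinuousOn ρ (Icc 0 1)) (f g : (Icc (0:ℝ) 1) →ᵇ ℝ) :
    dist (opT ρ hρ f) (opT ρ hρ g) ≤ dist f g := by
  rw [BoundedContinuousFunction.dist_le dist_nonneg]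
  intro w
  rw [opT_apply, opT_apply, Real.dist_eq]
  refine rearr_nonexp ((ext_cont f).continuousOn.sub hρ) ((ext_cont g).continuousOn.sub hρ) ?_ w.2.2
  intro x hx
  have := BoundedContinuousFunction.dist_coe_le_dist (f := f) (g := g) (projIcc 0 1 zero_le_one x)
  rw [Real.dist_eq] at this
  have e : ext f x - ρ x - (ext g x - ρ x) =
    f (projIcc 0 1 zero_le_one x) - g (projIcc 0 1 zero_le_one x) := by unfold ext; ring
  show |ext f x - ρ x - (ext g x - ρ x)| ≤ _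
  rw [e]; exact this

/-- The invariant class. -/
def Cls (Λ : ℝ) : Set ((Icc (0:ℝ) 1) →ᵇ ℝ) :=
  {f | (∀ x y : Icc (0:ℝ) 1, x ≤ y → 0 ≤ f x - f y ∧ f x - f y ≤ Λ * ((y:ℝ) - x)) ∧
    (∀ x ∈ Icc (0:ℝ) 1, ∀ y ∈ Icc (0:ℝ) 1, ∀ s t : ℝ, 0 ≤ s → 0 ≤ t → s + t = 1 →
      s * Real.exp (ext f x) + t * Real.exp (ext f y) ≤ Real.exp (ext f (s * x + t * y))) ∧
    ∫ x in Icc (0:ℝ) 1, ext f x = 0}

lemma ext_eval_cont (x : ℝ) : Continuous (fun f : (Icc (0:ℝ) 1) →ᵇ ℝ => ext f x) :=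
  (BoundedContinuousFunction.lipschitz_eval_const (projIcc 0 1 zero_le_one x)).continuous

lemma ext_integrable (f : (Icc (0:ℝ) 1) →ᵇ ℝ) : IntegrableOn (ext f) (Icc 0 1) :=
  (ext_cont f).continuousOn.integrableOn_compact isCompact_Icc

lemma cls_int_cont : Continuous (fun f : (Icc (0:ℝ) 1) →ᵇ ℝ => ∫ x in Icc (0:ℝ) 1, ext f x) := by
  rw [Metric.continuous_iff]
  intro g ε hε
  refine ⟨ε / 2, by positivity, fun f hf => ?_⟩
  rw [Real.dist_eq, ← integral_sub (ext_integrable f) (ext_integrable g)]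
  have := norm_setIntegral_le_of_norm_le_const (s := Icc (0:ℝ) 1) (μ := volume)
    (f := fun x => ext f x - ext g x) (C := ε / 2) (by simp) (by
      intro x _
      have := BoundedContinuousFunction.dist_coe_le_dist (f := f) (g := g)
        (projIcc 0 1 zero_le_one x)
      rw [Real.dist_eq] at this
      rw [Real.norm_eq_abs]
      exact le_trans this hf.le)
  simp at this
  rw [← Real.norm_eq_abs]
  simp only [Real.norm_eq_abs]
  linarith

lemma cls_eq (Λ : ℝ) : Cls Λ =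
    {f | ∀ x y : Icc (0:ℝ) 1, x ≤ y → 0 ≤ f x - f y ∧ f x - f y ≤ Λ * ((y:ℝ) - x)} ∩
    ({f | ∀ x ∈ Icc (0:ℝ) 1, ∀ y ∈ Icc (0:ℝ) 1, ∀ s t : ℝ, 0 ≤ s → 0 ≤ t → s + t = 1 →
      s * Real.exp (ext f x) + t * Real.exp (ext f y) ≤ Real.exp (ext f (s * x + t * y))} ∩
    {f | ∫ x in Icc (0:ℝ) 1, ext f x = 0}) := rfl

lemma cls_closed (Λ : ℝ) : IsClosed (Cls Λ) := by
  rw [cls_eq]
  refine IsClosed.inter ?_ (IsClosed.inter ?_ ?_)
  · simp only [ofPred_forall]
    refine isClosed_iInter fun x => isClosed_iInter fun y => isClosed_iInter fun h => ?_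
    refine IsClosed.inter ?_ ?_
    · exact isClosed_le continuous_const
        ((BoundedContinuousFunction.lipschitz_eval_const x).continuous.sub
          (BoundedContinuousFunction.lipschitz_eval_const y).continuous)
    · exact isClosed_le
        ((BoundedContinuousFunction.lipschitz_eval_const x).continuous.sub
          (BoundedContinuousFunction.lipschitz_eval_const y).continuous) continuous_const
  · simp only [ofPred_forall]
    refine isClosed_iInter fun x => isClosed_iInter fun _ => isClosed_iInter fun y =>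
      isClosed_iInter fun _ => isClosed_iInter fun s => isClosed_iInter fun t =>
      isClosed_iInter fun _ => isClosed_iInter fun _ => isClosed_iInter fun _ => ?_
    refine isClosed_le ?_ ?_
    · exact (continuous_const.mul (Real.continuous_exp.comp (ext_eval_cont x))).add
        (continuous_const.mul (Real.continuous_exp.comp (ext_eval_cont y)))
    · exact Real.continuous_exp.comp (ext_eval_cont _)
  · exact isClosed_eq cls_int_cont continuous_const

lemma cls_bound {Λ : ℝ} (hΛ : 0 ≤ Λ) {f : (Icc (0:ℝ) 1) →ᵇ ℝ} (hf : f ∈ Cls Λ) (x : Icc (0:ℝ) 1) :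
    f x ∈ Icc (-Λ) Λ := by
  obtain ⟨h1, _, h3⟩ := hf
  have hb : ∀ y ∈ Icc (0:ℝ) 1, f x - Λ ≤ ext f y ∧ ext f y ≤ f x + Λ := by
    intro y hy
    rw [ext_apply f hy]
    rcases le_total x ⟨y, hy⟩ with h | h
    · have := h1 x ⟨y, hy⟩ h
      have hh : Λ * (y - x) ≤ Λ * 1 := mul_le_mul_of_nonneg_left (by linarith [hy.2, x.2.1]) hΛ
      simp only at this
      constructor <;> linarith
    · have := h1 ⟨y, hy⟩ x h
      have hh : Λ * (x - y) ≤ Λ * 1 := mul_le_mul_of_nonneg_left (by linarith [hy.1, x.2.2]) hΛ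
      simp only at this
      constructor <;> linarith
  have i1 : ∫ y in Icc (0:ℝ) 1, (f x - Λ) ≤ ∫ y in Icc (0:ℝ) 1, ext f y :=
    setIntegral_mono_on (integrableOn_const (by simp)) (ext_integrable f) measurableSet_Icc
      (fun y hy => (hb y hy).1)
  have i2 : ∫ y in Icc (0:ℝ) 1, ext f y ≤ ∫ y in Icc (0:ℝ) 1, (f x + Λ) :=
    setIntegral_mono_on (ext_integrable f) (integrableOn_const (by simp)) measurableSet_Icc
      (fun y hy => (hb y hy).2)
  rw [h3] at i1 i2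
  simp at i1 i2
  constructor <;> linarith

lemma cls_compact {Λ : ℝ} (hΛ : 0 ≤ Λ) : IsCompact (Cls Λ) := by
  refine BoundedContinuousFunction.arzela_ascoli₂ (Icc (-Λ) Λ) isCompact_Icc (Cls Λ)
    (cls_closed Λ) (fun f x hf => cls_bound hΛ hf x) ?_
  apply UniformEquicontinuous.equicontinuous
  apply LipschitzWith.uniformEquicontinuous _ ⟨Λ, hΛ⟩
  rintro ⟨f, hf⟩
  apply LipschitzWith.of_dist_le_mul
  intro x y
  rw [Real.dist_eq, Subtype.dist_eq, Real.dist_eq]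
  rcases le_total x y with h | h
  · have := hf.1 x y h
    rw [abs_of_nonneg this.1, abs_sub_comm, abs_of_nonneg (by simpa using h)]
    exact this.2
  · have := hf.1 y x h
    rw [abs_sub_comm, abs_of_nonneg this.1, abs_of_nonneg (by simpa using h)]
    exact this.2


/-- Requirements on `ρ`. -/
structure RhoOK (ρ : ℝ → ℝ) (Λ : ℝ) : Prop where
  cont : ContinuousOn ρ (Icc 0 1)
  slope : ∀ x ∈ Icc (0:ℝ) 1, ∀ y ∈ Icc (0:ℝ) 1, x ≤ y →
    0 ≤ ρ x - ρ y ∧ ρ x - ρ y ≤ Λ * (y - x)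
  conc : ConcaveOn ℝ (Icc (0:ℝ) 1) (fun x => Real.exp (-ρ x))
  int0 : ∫ x in Icc (0:ℝ) 1, ρ x = 0

lemma cls_concave {Λ : ℝ} {f : (Icc (0:ℝ) 1) →ᵇ ℝ} (hf : f ∈ Cls Λ) :
    ConcaveOn ℝ (Icc (0:ℝ) 1) (fun x => Real.exp (ext f x)) := by
  refine ⟨convex_Icc 0 1, ?_⟩
  intro x hx y hy s t hs ht hst
  simp only [smul_eq_mul]
  exact hf.2.1 x hx y hy s t hs ht hst

lemma cls_slope {Λ : ℝ} {f : (Icc (0:ℝ) 1) →ᵇ ℝ} (hf : f ∈ Cls Λ) {x y : ℝ}
    (hx : x ∈ Icc (0:ℝ) 1) (hy : y ∈ Icc (0:ℝ) 1) (h : x ≤ y) :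
    0 ≤ ext f x - ext f y ∧ ext f x - ext f y ≤ Λ * (y - x) := by
  rw [ext_apply f hx, ext_apply f hy]
  exact hf.1 ⟨x, hx⟩ ⟨y, hy⟩ h

lemma alpha_concave {Λ : ℝ} {ρ : ℝ → ℝ} (hρ : RhoOK ρ Λ) {f : (Icc (0:ℝ) 1) →ᵇ ℝ}
    (hf : f ∈ Cls Λ) : ConcaveOn ℝ (Icc (0:ℝ) 1) (fun x => Real.exp (ext f x - ρ x)) := by
  have h1 := cls_concave hf
  have h2 := hρ.conc
  have ha : AntitoneOn (fun x => Real.exp (ext f x)) (Icc (0:ℝ) 1) := by
    intro x hx y hy hxy
    exact Real.exp_le_exp.mpr (by linarith [(cls_slope hf hx hy hxy).1])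
  have hm : MonotoneOn (fun x => Real.exp (-ρ x)) (Icc (0:ℝ) 1) := by
    intro x hx y hy hxy
    exact Real.exp_le_exp.mpr (by linarith [(hρ.slope x hx y hy hxy).1])
  have := h1.mul h2 (fun x _ => (Real.exp_pos _).le) (fun x _ => (Real.exp_pos _).le)
    (ha.antivaryOn hm)
  have e : (fun x => Real.exp (ext f x - ρ x)) =
      (fun x => Real.exp (ext f x)) * (fun x => Real.exp (-ρ x)) := by
    funext x
    simp only [Pi.mul_apply]
    rw [← Real.exp_add, sub_eq_add_neg]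
  rw [e]; exact this

lemma alpha_level {Λ : ℝ} {ρ : ℝ → ℝ} (hρ : RhoOK ρ Λ) {f : (Icc (0:ℝ) 1) →ᵇ ℝ}
    (hf : f ∈ Cls Λ) (ℓ : ℝ) : Convex ℝ {x ∈ Icc (0:ℝ) 1 | ℓ ≤ ext f x - ρ x} := by
  have h := (alpha_concave hρ hf).convex_ge (Real.exp ℓ)
  have e : {x ∈ Icc (0:ℝ) 1 | ℓ ≤ ext f x - ρ x} =
      {x | x ∈ Icc (0:ℝ) 1 ∧ Real.exp ℓ ≤ (fun x => Real.exp (ext f x - ρ x)) x} := by
    ext x
    simp only [mem_ofPred_eq, Real.exp_le_exp]
  rw [e]
  exact h

lemma alpha_slope {Λ : ℝ} {ρ : ℝ → ℝ} (hρ : RhoOK ρ Λ) {f : (Icc (0:ℝ) 1) →ᵇ ℝ}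
    (hf : f ∈ Cls Λ) {x y : ℝ} (hx : x ∈ Icc (0:ℝ) 1) (hy : y ∈ Icc (0:ℝ) 1) :
    |(ext f x - ρ x) - (ext f y - ρ y)| ≤ Λ * |x - y| := by
  rcases le_total x y with h | h
  · have h1 := cls_slope hf hx hy h
    have h2 := hρ.slope x hx y hy h
    have h3 : |x - y| = y - x := by rw [abs_sub_comm, abs_of_nonneg (by linarith)]
    rw [abs_le, h3]
    constructor <;> linarith
  · have h1 := cls_slope hf hy hx h
    have h2 := hρ.slope y hy x hx h
    have h3 : |x - y| = x - y := by rw [abs_of_nonneg (by linarith)]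
    rw [abs_le, h3]
    constructor <;> linarith

lemma ext_opT {ρ : ℝ → ℝ} (hρ : ContinuousOn ρ (Icc 0 1)) (f : (Icc (0:ℝ) 1) →ᵇ ℝ) {x : ℝ}
    (hx : x ∈ Icc (0:ℝ) 1) : ext (opT ρ hρ f) x = rearr (fun x => ext f x - ρ x) x := by
  rw [ext_apply _ hx]; rfl

lemma opT_mem {Λ : ℝ} {ρ : ℝ → ℝ} (hρ : RhoOK ρ Λ) (hΛ : 0 ≤ Λ) {f : (Icc (0:ℝ) 1) →ᵇ ℝ}
    (hf : f ∈ Cls Λ) : opT ρ hρ.cont f ∈ Cls Λ := by
  have hα : ContinuousOn (fun x => ext f x - ρ x) (Icc 0 1) := (ext_cont f).continuousOn.sub hρ.cont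
  refine ⟨?_, ?_, ?_⟩
  · intro x y hxy
    rw [opT_apply, opT_apply]
    have h1 := rearr_anti hα (show (x:ℝ) ≤ y from hxy) y.2.2
    refine ⟨by linarith, ?_⟩
    have hxy' : (x:ℝ) ≤ y := hxy
    have := rearr_modulus hα (δ := (y:ℝ) - x) (ε := Λ * ((y:ℝ) - x)) (fun a ha b hb hab =>
      (alpha_slope hρ hf ha hb).trans (mul_le_mul_of_nonneg_left hab hΛ)) x.2 y.2
      (by rw [abs_sub_comm, abs_of_nonneg (by linarith)])
    exact (le_abs_self _).trans this
  · have h := (rearr_exp_concave hα (alpha_concave hρ hf)).2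
    intro x hx y hy s t hs ht hst
    have := h hx hy hs ht hst
    simp only [smul_eq_mul] at this
    have hm : s * x + t * y ∈ Icc (0:ℝ) 1 := (convex_Icc (0:ℝ) 1) hx hy hs ht hst
    rw [ext_opT hρ.cont f hx, ext_opT hρ.cont f hy, ext_opT hρ.cont f hm]
    exact this
  · have e : ∫ x in Icc (0:ℝ) 1, ext (opT ρ hρ.cont f) x =
        ∫ x in Icc (0:ℝ) 1, rearr (fun x => ext f x - ρ x) x :=
      setIntegral_congr_fun measurableSet_Icc (fun x hx => ext_opT hρ.cont f hx)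
    rw [e, rearr_integral hα (alpha_level hρ hf), integral_sub (ext_integrable f)
      (hρ.cont.integrableOn_compact isCompact_Icc), hf.2.2, hρ.int0, sub_zero]

lemma cls_smul {Λ : ℝ} {f : (Icc (0:ℝ) 1) →ᵇ ℝ} (hf : f ∈ Cls Λ) {c : ℝ} (h0 : 0 ≤ c)
    (h1 : c ≤ 1) : c • f ∈ Cls Λ := by
  have he : ∀ x, ext (c • f) x = c * ext f x := fun x => rfl
  refine ⟨?_, ?_, ?_⟩
  · intro x y hxy
    obtain ⟨a, b⟩ := hf.1 x y hxy
    have e : (c • f) x - (c • f) y = c * (f x - f y) := by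
      simp only [BoundedContinuousFunction.coe_smul, smul_eq_mul]; ring
    rw [e]
    refine ⟨mul_nonneg h0 a, ?_⟩
    calc c * (f x - f y) ≤ 1 * (f x - f y) := mul_le_mul_of_nonneg_right h1 a
      _ ≤ _ := by linarith
  · intro x hx y hy s t hs ht hst
    rw [he, he, he, mul_comm c, mul_comm c, mul_comm c, Real.exp_mul, Real.exp_mul, Real.exp_mul]
    have hr := (Real.concaveOn_rpow h0 h1).2 (Set.mem_Ici.mpr (Real.exp_pos (ext f x)).le)
      (Set.mem_Ici.mpr (Real.exp_pos (ext f y)).le) hs ht hst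
    simp only [smul_eq_mul] at hr
    refine hr.trans ?_
    apply Real.rpow_le_rpow
    · positivity
    · exact hf.2.1 x hx y hy s t hs ht hst
    · exact h0
  · have : ∫ x in Icc (0:ℝ) 1, ext (c • f) x = ∫ x in Icc (0:ℝ) 1, c * ext f x := rfl
    rw [this, integral_const_mul, hf.2.2, mul_zero]

lemma cls_zero {Λ : ℝ} (hΛ : 0 ≤ Λ) : (0 : (Icc (0:ℝ) 1) →ᵇ ℝ) ∈ Cls Λ := by
  have he : ∀ x, ext (0 : (Icc (0:ℝ) 1) →ᵇ ℝ) x = 0 := fun x => rfl
  refine ⟨?_, ?_, ?_⟩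
  · intro x y hxy
    have : (0:ℝ) ≤ (y:ℝ) - x := by
      have : (x:ℝ) ≤ y := hxy
      linarith
    simp only [BoundedContinuousFunction.coe_zero, Pi.zero_apply, sub_self, le_refl, true_and]
    positivity
  · intro x _ y _ s t _ _ hst
    rw [he, he, he]; simp [hst]
  · simp [he]

/-- The fixed point. -/
theorem exists_fixed {Λ : ℝ} {ρ : ℝ → ℝ} (hρ : RhoOK ρ Λ) (hΛ : 0 ≤ Λ) :
    ∃ f ∈ Cls Λ, opT ρ hρ.cont f = f := by
  set T := opT ρ hρ.cont with hT
  have hcont : Continuous T := by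
    have : LipschitzWith 1 T := LipschitzWith.of_dist_le_mul (fun f g => by
      simpa using opT_dist hρ.cont f g)
    exact this.continuous
  obtain ⟨f, hf, hmin⟩ := (cls_compact hΛ).exists_isMinOn ⟨0, cls_zero hΛ⟩
    (f := fun f => dist (T f) f) (hcont.dist continuous_id).continuousOn
  refine ⟨f, hf, ?_⟩
  have hle : ∀ c : ℝ, 0 ≤ c → c < 1 → dist (T f) f ≤ (1 - c) * Λ := by
    intro c h0 h1
    have hmaps : MapsTo (fun g => c • T g) (Cls Λ) (Cls Λ) := fun g hg =>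
      cls_smul (opT_mem hρ hΛ hg) h0 h1.le
    have hcon : ContractingWith ⟨c, h0⟩ (hmaps.restrict (fun g => c • T g) (Cls Λ) (Cls Λ)) := by
      refine ⟨by exact_mod_cast h1, ?_⟩
      apply LipschitzWith.of_dist_le_mul
      rintro ⟨g1, hg1⟩ ⟨g2, hg2⟩
      have key : dist (c • T g1) (c • T g2) ≤ c * dist g1 g2 := by
        rw [BoundedContinuousFunction.dist_le (mul_nonneg h0 dist_nonneg)]
        intro x
        have e : (c • T g1) x - (c • T g2) x = c * (T g1 x - T g2 x) := by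
          simp only [BoundedContinuousFunction.coe_smul, smul_eq_mul]; ring
        rw [Real.dist_eq, e, abs_mul, abs_of_nonneg h0]
        refine mul_le_mul_of_nonneg_left ?_ h0
        have := BoundedContinuousFunction.dist_coe_le_dist (f := T g1) (g := T g2) x
        rw [Real.dist_eq] at this
        exact this.trans (opT_dist hρ.cont g1 g2)
      exact key
    obtain ⟨g, hg, hfix, _⟩ := hcon.exists_fixedPoint' (cls_compact hΛ).isComplete hmaps
      (cls_zero hΛ) (edist_ne_top _ _)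
    have hg' : c • T g = g := hfix
    have h2 := hmin hg
    simp only [mem_ofPred_eq] at h2
    refine h2.trans ?_
    rw [BoundedContinuousFunction.dist_le (mul_nonneg (by linarith) hΛ)]
    intro x
    have hx : g x = c * T g x := by
      have := congrArg (fun u : (Icc (0:ℝ) 1) →ᵇ ℝ => u x) hg'
      simp only [BoundedContinuousFunction.coe_smul, smul_eq_mul] at this
      exact this.symm
    have hb := cls_bound hΛ (opT_mem hρ hΛ hg) x
    rw [Real.dist_eq]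
    have e : T g x - g x = (1 - c) * T g x := by rw [hx]; ring
    rw [e, abs_mul, abs_of_nonneg (by linarith)]
    apply mul_le_mul_of_nonneg_left _ (by linarith)
    rw [abs_le]
    exact hb
  have h0 : dist (T f) f ≤ 0 := by
    by_contra hcon
    push Not at hcon
    have hΛ' : 0 < Λ := by
      have := hle 0 le_rfl one_pos
      linarith
    have := hle (1 - min (dist (T f) f / (2 * Λ)) 1)
      (by linarith [min_le_right (dist (T f) f / (2 * Λ)) 1])
      (by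
        have : 0 < min (dist (T f) f / (2 * Λ)) 1 := lt_min (by positivity) one_pos
        linarith)
    have h4 : (1 - (1 - min (dist (T f) f / (2 * Λ)) 1)) * Λ ≤ (dist (T f) f / (2 * Λ)) * Λ := by
      apply mul_le_mul_of_nonneg_right _ hΛ'.le
      linarith [min_le_left (dist (T f) f / (2 * Λ)) 1]
    have h5 : (dist (T f) f / (2 * Λ)) * Λ = dist (T f) f / 2 := by field_simp
    linarith
  exact dist_le_zero.mp h0

end MP_e55421_gt
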