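import Pool.Agent.Lib.MP_e55421_gt.Defs

/-! MP_e55421_gt, Task B: a nonexpansive self-map of a compact convex set has a fixed point; the
existence of `h`, given the properties of the rearrangement operator as hypotheses. -/

namespace Pool.Agent.Lib.MP_e55421_gt

open Set MeasureTheory BoundedContinuousFunction

/-- a nonexpansive self-map of a compact convex set has a fixed point -/
theorem fixed_of_nonexpansive {E : Type*} [NormedAddCommGroup E] [NormedSpace ℝ E]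
    {A : Set E} (hA : IsCompact A) (hconv : Convex ℝ A) (hne : A.Nonempty) (T : E → E)
    (hT : MapsTo T A A) (hT' : ∀ x ∈ A, ∀ y ∈ A, ‖T x - T y‖ ≤ ‖x - y‖) : ∃ x ∈ A, T x = x := by
  have hcT : ContinuousOn T A := by
    have : LipschitzOnWith 1 T A := by
      refine LipschitzOnWith.of_dist_le_mul fun x hx y hy => ?_
      simpa [dist_eq_norm] using hT' x hx y hy
    exact this.continuousOn
  obtain ⟨x0, hx0⟩ := hne
  obtain ⟨D, hD⟩ := hA.isBounded.exists_norm_le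
  have hD0 : 0 ≤ D := (norm_nonneg x0).trans (hD x0 hx0)
  -- approximate fixed points
  have key : ∀ t : ℝ, 0 < t → t ≤ 1 → ∃ x ∈ A, ‖T x - x‖ ≤ t * (2 * D) := by
    intro t ht0 ht1
    set S : E → E := fun x => (1 - t) • T x + t • x0 with hS
    have hSA : MapsTo S A A := by
      intro x hx
      exact hconv (hT hx) hx0 (by linarith) ht0.le (by ring)
    have hcS : ContinuousOn (fun x => ‖S x - x‖) A :=
      ((((continuousOn_const.smul hcT).add continuousOn_const)).sub continuousOn_id).norm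
    obtain ⟨x1, hx1, hmin⟩ := hA.exists_isMinOn ⟨x0, hx0⟩ hcS
    have h1 : ‖S x1 - x1‖ ≤ ‖S (S x1) - S x1‖ := hmin (hSA hx1)
    have h2 : S (S x1) - S x1 = (1 - t) • (T (S x1) - T x1) := by
      simp only [hS, smul_sub]; abel
    have h3 : ‖S (S x1) - S x1‖ ≤ (1 - t) * ‖S x1 - x1‖ := by
      rw [h2, norm_smul, Real.norm_of_nonneg (by linarith)]
      exact mul_le_mul_of_nonneg_left (hT' _ (hSA hx1) _ hx1) (by linarith)
    have h4 : ‖S x1 - x1‖ = 0 := by
      have h5 : t * ‖S x1 - x1‖ ≤ 0 := by linarith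
      have h6 : ‖S x1 - x1‖ ≤ 0 := by
        by_contra hcon
        push Not at hcon
        have := mul_pos ht0 hcon
        linarith
      exact le_antisymm h6 (norm_nonneg _)
    have h5 : S x1 = x1 := sub_eq_zero.1 (norm_eq_zero.1 h4)
    refine ⟨x1, hx1, ?_⟩
    have h6 : T x1 - x1 = t • (T x1 - x0) := by
      have : (1 - t) • T x1 + t • x0 = x1 := h5
      calc T x1 - x1 = T x1 - ((1 - t) • T x1 + t • x0) := by rw [this]
        _ = t • (T x1 - x0) := by rw [sub_smul, smul_sub, one_smul]; abel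
    rw [h6, norm_smul, Real.norm_of_nonneg ht0.le]
    refine mul_le_mul_of_nonneg_left ?_ ht0.le
    calc ‖T x1 - x0‖ ≤ ‖T x1‖ + ‖x0‖ := norm_sub_le _ _
      _ ≤ D + D := add_le_add (hD _ (hT hx1)) (hD _ hx0)
      _ = 2 * D := by ring
  have hcφ : ContinuousOn (fun x => ‖T x - x‖) A := (hcT.sub continuousOn_id).norm
  obtain ⟨x2, hx2, hmin2⟩ := hA.exists_isMinOn ⟨x0, hx0⟩ hcφ
  refine ⟨x2, hx2, ?_⟩
  have h7 : ‖T x2 - x2‖ ≤ 0 := by
    by_contra hcon
    push Not at hcon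
    set a := ‖T x2 - x2‖ with ha
    have hpos : 0 < 2 * D + a := by linarith
    obtain ⟨x, hx, hxle⟩ := key (a / (2 * (2 * D + a))) (by positivity)
      (by rw [div_le_one (by positivity)]; linarith)
    have h8 : a ≤ ‖T x - x‖ := hmin2 hx
    have h9 : a / (2 * (2 * D + a)) * (2 * D) < a := by
      rw [div_mul_eq_mul_div, div_lt_iff₀ (by positivity)]
      nlinarith
    linarith
  exact sub_eq_zero.1 (norm_eq_zero.1 (le_antisymm h7 (norm_nonneg _)))

/-- extension of a function on `[0,w]` to the line, constant outside -/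
noncomputable def ext {w : ℝ} (hw : 0 < w) (h : Icc (0:ℝ) w →ᵇ ℝ) : ℝ → ℝ :=
  fun x => h (projIcc 0 w hw.le x)

theorem ext_continuous {w : ℝ} (hw : 0 < w) (h : Icc (0:ℝ) w →ᵇ ℝ) : Continuous (ext hw h) :=
  h.continuous.comp continuous_projIcc

theorem ext_eq {w : ℝ} (hw : 0 < w) (h : Icc (0:ℝ) w →ᵇ ℝ) {x : ℝ} (hx : x ∈ Icc (0:ℝ) w) :
    ext hw h x = h ⟨x, hx⟩ := by
  unfold ext
  rw [projIcc_of_mem]

/-- restriction of a continuous function to `[0,w]` -/
noncomputable def res (w : ℝ) (g : ℝ → ℝ) (hg : Continuous g) : Icc (0:ℝ) w →ᵇ ℝ :=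
  BoundedContinuousFunction.mkOfCompact ⟨fun x => g x, hg.comp continuous_subtype_val⟩

theorem res_apply (w : ℝ) (g : ℝ → ℝ) (hg : Continuous g) (x : Icc (0:ℝ) w) :
    res w g hg x = g x := rfl

theorem ext_res {w : ℝ} (hw : 0 < w) (g : ℝ → ℝ) (hg : Continuous g) {x : ℝ}
    (hx : x ∈ Icc (0:ℝ) w) : ext hw (res w g hg) x = g x := by
  rw [ext_eq hw _ hx, res_apply]

/-- the compact convex set of candidate functions -/
def AA {w : ℝ} (hw : 0 < w) (c M : ℝ) : Set (Icc (0:ℝ) w →ᵇ ℝ) :=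
  {h | (∀ x ∈ Icc (0:ℝ) w, ∀ y ∈ Icc (0:ℝ) w, x ≤ y →
      ext hw h y ≤ ext hw h x ∧ ext hw h x - ext hw h y ≤ M * (y - x)) ∧
      SC c w (ext hw h) ∧ ∫ x in Icc (0:ℝ) w, ext hw h x = 0}

theorem intOn_of_cont {w : ℝ} {g : ℝ → ℝ} (hg : Continuous g) :
    IntegrableOn g (Icc (0:ℝ) w) := hg.continuousOn.integrableOn_compact isCompact_Icc

theorem AA_convex {w : ℝ} (hw : 0 < w) (c M : ℝ) : Convex ℝ (AA hw c M) := by
  intro f hf g hg a b ha hb hab
  have he : ∀ x, ext hw (a • f + b • g) x = a * ext hw f x + b * ext hw g x := fun x => by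
    simp [ext]
  refine ⟨fun x hx y hy hxy => ?_, fun x hx y hy t ht => ?_, ?_⟩
  · obtain ⟨h1, h2⟩ := hf.1 x hx y hy hxy
    obtain ⟨h3, h4⟩ := hg.1 x hx y hy hxy
    rw [he, he]
    constructor
    · nlinarith
    · have : M * (y - x) = a * (M * (y - x)) + b * (M * (y - x)) := by rw [← add_mul, hab, one_mul]
      rw [this]
      nlinarith
  · have h1 := hf.2.1 x hx y hy t ht
    have h2 := hg.2.1 x hx y hy t ht
    rw [he, he, he]
    have h3 := mul_le_mul_of_nonneg_left h1 ha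
    have h4 := mul_le_mul_of_nonneg_left h2 hb
    have : c / 2 * (t * (1 - t)) * (x - y) ^ 2 = a * (c / 2 * (t * (1 - t)) * (x - y) ^ 2) +
      b * (c / 2 * (t * (1 - t)) * (x - y) ^ 2) := by rw [← add_mul, hab, one_mul]
    rw [this]
    linarith
  · simp_rw [he]
    rw [integral_add ((intOn_of_cont (ext_continuous hw f)).const_mul a)
      ((intOn_of_cont (ext_continuous hw g)).const_mul b),
      integral_const_mul, integral_const_mul, hf.2.2, hg.2.2]
    ring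

theorem ext_eval_continuous {w : ℝ} (hw : 0 < w) (x : ℝ) :
    Continuous (fun h : Icc (0:ℝ) w →ᵇ ℝ => ext hw h x) := by
  unfold ext
  fun_prop

theorem ext_int_continuous {w : ℝ} (hw : 0 < w) :
    Continuous (fun h : Icc (0:ℝ) w →ᵇ ℝ => ∫ x in Icc (0:ℝ) w, ext hw h x) := by
  have : LipschitzWith (Real.toNNReal w)
      (fun h : Icc (0:ℝ) w →ᵇ ℝ => ∫ x in Icc (0:ℝ) w, ext hw h x) := by
    refine LipschitzWith.of_dist_le_mul fun f g => ?_
    rw [dist_eq_norm, ← integral_sub (intOn_of_cont (ext_continuous hw f))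
      (intOn_of_cont (ext_continuous hw g))]
    refine (norm_setIntegral_le_of_norm_le_const (C := dist f g) (by simp) ?_).trans ?_
    · intro x hx
      rw [← dist_eq_norm]
      exact dist_coe_le_dist _
    · rw [mul_comm]
      gcongr
      rw [Real.coe_toNNReal _ hw.le]
      simp [hw.le]
  exact this.continuous

theorem AA_closed {w : ℝ} (hw : 0 < w) (c M : ℝ) : IsClosed (AA hw c M) := by
  have e := ext_eval_continuous hw
  have h1 : IsClosed (⋂ x ∈ Icc (0:ℝ) w, ⋂ y ∈ Icc (0:ℝ) w, ⋂ _ : x ≤ y,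
      {h : Icc (0:ℝ) w →ᵇ ℝ | ext hw h y ≤ ext hw h x ∧
        ext hw h x - ext hw h y ≤ M * (y - x)}) := by
    refine isClosed_iInter fun x => isClosed_iInter fun hx => isClosed_iInter fun y =>
      isClosed_iInter fun hy => isClosed_iInter fun hxy => ?_
    exact (isClosed_le (e y) (e x)).inter (isClosed_le ((e x).sub (e y)) continuous_const)
  have h2 : IsClosed (⋂ x ∈ Icc (0:ℝ) w, ⋂ y ∈ Icc (0:ℝ) w, ⋂ t ∈ Icc (0:ℝ) 1,
      {h : Icc (0:ℝ) w →ᵇ ℝ | t * ext hw h x + (1 - t) * ext hw h y +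
        c / 2 * (t * (1 - t)) * (x - y) ^ 2 ≤ ext hw h (t * x + (1 - t) * y)}) := by
    refine isClosed_iInter fun x => isClosed_iInter fun hx => isClosed_iInter fun y =>
      isClosed_iInter fun hy => isClosed_iInter fun t => isClosed_iInter fun ht => ?_
    exact isClosed_le ((((continuous_const.mul (e x))).add (continuous_const.mul (e y))).add
      continuous_const) (e _)
  have h3 : IsClosed {h : Icc (0:ℝ) w →ᵇ ℝ | ∫ x in Icc (0:ℝ) w, ext hw h x = 0} :=
    isClosed_eq (ext_int_continuous hw) continuous_const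
  have h4 := h1.inter (h2.inter h3)
  convert h4 using 1
  ext h
  simp only [AA, SC, mem_ofPred_eq, mem_inter_iff, mem_iInter]

theorem AA_bound {w : ℝ} (hw : 0 < w) {c M : ℝ} {h : Icc (0:ℝ) w →ᵇ ℝ} (hh : h ∈ AA hw c M) :
    ∀ x ∈ Icc (0:ℝ) w, ext hw h x ∈ Icc (-(M * w)) (M * w) := by
  have h0w : (0:ℝ) ∈ Icc (0:ℝ) w := ⟨le_rfl, hw.le⟩
  have hww : w ∈ Icc (0:ℝ) w := ⟨hw.le, le_rfl⟩
  have hi := hh.2.2
  have hI := intOn_of_cont (w := w) (ext_continuous hw h)
  have h1 : 0 ≤ ext hw h 0 := by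
    have : ∫ x in Icc (0:ℝ) w, ext hw h x ≤ ∫ x in Icc (0:ℝ) w, ext hw h 0 := by
      refine setIntegral_mono_on hI (intOn_of_cont continuous_const) measurableSet_Icc ?_
      intro x hx
      exact (hh.1 0 h0w x hx hx.1).1
    rw [hi] at this
    simp [hw.le] at this
    by_contra hcon
    push Not at hcon
    have := mul_neg_of_pos_of_neg hw hcon
    linarith
  have h2 : ext hw h w ≤ 0 := by
    have : ∫ x in Icc (0:ℝ) w, ext hw h w ≤ ∫ x in Icc (0:ℝ) w, ext hw h x := by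
      refine setIntegral_mono_on (intOn_of_cont continuous_const) hI measurableSet_Icc ?_
      intro x hx
      exact (hh.1 x hx w hww hx.2).1
    rw [hi] at this
    simp [hw.le] at this
    by_contra hcon
    push Not at hcon
    have := mul_pos hw hcon
    linarith
  have h3 := (hh.1 0 h0w w hww hw.le).2
  rw [sub_zero] at h3
  intro x hx
  have h4 := (hh.1 0 h0w x hx hx.1).1
  have h5 := (hh.1 x hx w hww hx.2).1
  constructor <;> linarith

theorem AA_compact {w : ℝ} (hw : 0 < w) {c M : ℝ} : IsCompact (AA hw c M) := by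
  refine arzela_ascoli₂ (Icc (-(M * w)) (M * w)) isCompact_Icc _ (AA_closed hw c M) ?_ ?_
  · intro f x hf
    have := AA_bound hw hf x x.2
    rwa [ext_eq hw f x.2] at this
  · refine Metric.equicontinuous_of_continuity_modulus (fun d => |M| * d) ?_ _ ?_
    · have : Filter.Tendsto (fun d : ℝ => |M| * d) (nhds 0) (nhds (|M| * 0)) :=
        (continuous_const.mul continuous_id).tendsto 0
      simpa using this
    · intro x y f
      have hf := f.2.1
      have key : ∀ x y : Icc (0:ℝ) w, (x:ℝ) ≤ y → |(f:Icc (0:ℝ) w →ᵇ ℝ) x - (f:Icc (0:ℝ) w →ᵇ ℝ) y| ≤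
          |M| * |(x:ℝ) - y| := by
        intro x y hxy
        have := hf x x.2 y y.2 hxy
        rw [ext_eq hw _ x.2, ext_eq hw _ y.2] at this
        have h1 : 0 ≤ (f:Icc (0:ℝ) w →ᵇ ℝ) x - (f:Icc (0:ℝ) w →ᵇ ℝ) y := sub_nonneg.2 this.1
        have h2 : (0:ℝ) ≤ (y:ℝ) - x := sub_nonneg.2 hxy
        rw [abs_of_nonneg h1, abs_sub_comm (x:ℝ), abs_of_nonneg h2]
        refine this.2.trans ?_
        exact mul_le_mul_of_nonneg_right (le_abs_self M) h2
      rw [Real.dist_eq]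
      rcases le_total (x:ℝ) y with h | h
      · exact key x y h
      · have := key y x h
        rw [abs_sub_comm, abs_sub_comm (y:ℝ)] at this
        exact this

theorem AA_nonempty {w : ℝ} (hw : 0 < w) {c M : ℝ} (hc : 0 ≤ c) (hcw : c * w ≤ M) :
    (AA hw c M).Nonempty := by
  set k : ℝ := (∫ x in Icc (0:ℝ) w, c / 2 * x ^ 2) / w with hk
  have hcont : Continuous (fun x : ℝ => k - c / 2 * x ^ 2) := by fun_prop
  refine ⟨res w _ hcont, ?_, ?_, ?_⟩
  · intro x hx y hy hxy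
    rw [ext_res hw _ hcont hx, ext_res hw _ hcont hy]
    have h0 : 0 ≤ x := hx.1
    have h1 : y ≤ w := hy.2
    constructor
    · have : x ^ 2 ≤ y ^ 2 := by nlinarith
      nlinarith
    · have h2 : c / 2 * y ^ 2 - c / 2 * x ^ 2 = c * ((y + x) / 2) * (y - x) := by ring
      have h3 : c * ((y + x) / 2) ≤ c * w := mul_le_mul_of_nonneg_left (by linarith) hc
      have h4 : c * ((y + x) / 2) * (y - x) ≤ M * (y - x) :=
        mul_le_mul_of_nonneg_right (h3.trans hcw) (by linarith)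
      linarith
  · intro x hx y hy t ht
    have hm : t * x + (1 - t) * y ∈ Icc (0:ℝ) w := by
      have := (convex_Icc (0:ℝ) w) hx hy ht.1 (by linarith [ht.2] : 0 ≤ 1 - t) (by ring)
      simpa using this
    rw [ext_res hw _ hcont hx, ext_res hw _ hcont hy, ext_res hw _ hcont hm]
    apply le_of_eq
    ring
  · have : ∫ x in Icc (0:ℝ) w, ext hw (res w _ hcont) x = ∫ x in Icc (0:ℝ) w, (k - c / 2 * x ^ 2) := by
      refine setIntegral_congr_fun measurableSet_Icc fun x hx => ?_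
      exact ext_res hw _ hcont hx
    rw [this, integral_sub (intOn_of_cont continuous_const) (intOn_of_cont (by fun_prop))]
    simp only [integral_const, MeasurableSet.univ, measureReal_restrict_apply, univ_inter,
      Real.volume_real_Icc, smul_eq_mul, hk]
    rw [max_eq_left (by linarith)]
    field_simp
    ring

theorem SC_mono_add {w κ c : ℝ} (hc : 0 ≤ c) {h ν : ℝ → ℝ} (h1 : SC c w h) (h2 : SC κ w ν) :
    SC κ w (fun x => h x + ν x) := by
  intro x hx y hy t ht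
  have a := h1 x hx y hy t ht
  have b := h2 x hx y hy t ht
  have d : 0 ≤ c / 2 * (t * (1 - t)) * (x - y) ^ 2 := by
    have := mul_nonneg ht.1 (by linarith [ht.2] : 0 ≤ 1 - t)
    positivity
  simp only
  linarith

theorem exists_h_core {w κ M : ℝ}
    (RRc : ∀ {g : ℝ → ℝ}, Continuous g → Continuous (RR w g))
    (RRn : ∀ {ε : ℝ} {g g' : ℝ → ℝ}, Continuous g → Continuous g' →
      (∀ x ∈ Icc (0:ℝ) w, |g x - g' x| ≤ ε) →
      ∀ m ∈ Icc (0:ℝ) w, |RR w g m - RR w g' m| ≤ ε)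
    (RRal : ∀ {g : ℝ → ℝ}, Continuous g → SC κ w g →
      (∀ x ∈ Icc (0:ℝ) w, ∀ y ∈ Icc (0:ℝ) w, |g x - g y| ≤ M * |x - y|) →
      ∀ x ∈ Icc (0:ℝ) w, ∀ y ∈ Icc (0:ℝ) w, x ≤ y →
        RR w g y ≤ RR w g x ∧ RR w g x - RR w g y ≤ M * (y - x))
    (RRv : ∀ {g : ℝ → ℝ}, Continuous g → SC κ w g → ∀ l : ℝ,
      volume {m : ℝ | m ∈ Icc (0:ℝ) w ∧ l ≤ RR w g m} =
        volume {x : ℝ | x ∈ Icc (0:ℝ) w ∧ l ≤ g x})
    (RRi : ∀ {g : ℝ → ℝ}, Continuous g → SC κ w g →
      ∫ m in Icc (0:ℝ) w, RR w g m = ∫ x in Icc (0:ℝ) w, g x)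
    (RRs : ∀ {g : ℝ → ℝ}, Continuous g → SC κ w g → SC (κ / 12) w (RR w g))
    (hw : 0 < w) (hκ : 0 < κ) (hcw : κ / 12 * w ≤ M) (ν : ℝ → ℝ)
    (hν : Continuous ν) (hsc : SC κ w ν)
    (hL : ∀ x ∈ Icc (0:ℝ) w, ∀ y ∈ Icc (0:ℝ) w, x ≤ y → 0 ≤ ν y - ν x ∧ ν y - ν x ≤ M * (y - x))
    (hint : ∫ x in Icc (0:ℝ) w, ν x = 0) :
    ∃ h : ℝ → ℝ, Continuous h ∧
      (∀ x ∈ Icc (0:ℝ) w, ∀ y ∈ Icc (0:ℝ) w, x ≤ y → h y ≤ h x ∧ h x - h y ≤ M * (y - x)) ∧
      SC (κ / 12) w h ∧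
      ∀ l : ℝ, volume {x : ℝ | x ∈ Icc (0:ℝ) w ∧ l ≤ h x} =
        volume {x : ℝ | x ∈ Icc (0:ℝ) w ∧ l ≤ h x + ν x} := by
  have hc : 0 ≤ κ / 12 := by positivity
  have hg : ∀ h : Icc (0:ℝ) w →ᵇ ℝ, Continuous (fun x => ext hw h x + ν x) := fun h =>
    (ext_continuous hw h).add hν
  have hgsc : ∀ h ∈ AA hw (κ / 12) M, SC κ w (fun x => ext hw h x + ν x) := fun h hh =>
    SC_mono_add hc hh.2.1 hsc
  have hgL : ∀ h ∈ AA hw (κ / 12) M, ∀ x ∈ Icc (0:ℝ) w, ∀ y ∈ Icc (0:ℝ) w,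
      |(fun x => ext hw h x + ν x) x - (fun x => ext hw h x + ν x) y| ≤ M * |x - y| := by
    intro h hh
    have key : ∀ x ∈ Icc (0:ℝ) w, ∀ y ∈ Icc (0:ℝ) w, x ≤ y →
        |(ext hw h x + ν x) - (ext hw h y + ν y)| ≤ M * |x - y| := by
      intro x hx y hy hxy
      obtain ⟨a, b⟩ := hh.1 x hx y hy hxy
      obtain ⟨c, d⟩ := hL x hx y hy hxy
      rw [abs_sub_comm x, abs_of_nonneg (by linarith : 0 ≤ y - x), abs_le]
      constructor <;> linarith
    intro x hx y hy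
    rcases le_total x y with h' | h'
    · exact key x hx y hy h'
    · have := key y hy x hx h'
      rw [abs_sub_comm, abs_sub_comm y] at this
      exact this
  set T : (Icc (0:ℝ) w →ᵇ ℝ) → (Icc (0:ℝ) w →ᵇ ℝ) := fun h =>
    res w (RR w (fun x => ext hw h x + ν x)) (RRc (hg h)) with hT
  have hTe : ∀ h, ∀ x ∈ Icc (0:ℝ) w, ext hw (T h) x = RR w (fun x => ext hw h x + ν x) x :=
    fun h x hx => ext_res hw _ _ hx
  have hm : ∀ x ∈ Icc (0:ℝ) w, ∀ y ∈ Icc (0:ℝ) w, ∀ t ∈ Icc (0:ℝ) 1,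
      t * x + (1 - t) * y ∈ Icc (0:ℝ) w := by
    intro x hx y hy t ht
    have := (convex_Icc (0:ℝ) w) hx hy ht.1 (by linarith [ht.2] : 0 ≤ 1 - t) (by ring)
    simpa using this
  have hTA : MapsTo T (AA hw (κ / 12) M) (AA hw (κ / 12) M) := by
    intro h hh
    refine ⟨fun x hx y hy hxy => ?_, fun x hx y hy t ht => ?_, ?_⟩
    · rw [hTe h x hx, hTe h y hy]
      exact RRal (hg h) (hgsc h hh) (hgL h hh) x hx y hy hxy
    · rw [hTe h x hx, hTe h y hy, hTe h _ (hm x hx y hy t ht)]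
      exact RRs (hg h) (hgsc h hh) x hx y hy t ht
    · rw [setIntegral_congr_fun measurableSet_Icc (hTe h), RRi (hg h) (hgsc h hh),
        integral_add (intOn_of_cont (ext_continuous hw h)) (intOn_of_cont hν), hint, hh.2.2, add_zero]
  have hTn : ∀ x ∈ AA hw (κ / 12) M, ∀ y ∈ AA hw (κ / 12) M, ‖T x - T y‖ ≤ ‖x - y‖ := by
    intro f hf g hg'
    rw [← dist_eq_norm, ← dist_eq_norm]
    refine (dist_le dist_nonneg).2 fun x => ?_
    rw [Real.dist_eq]
    refine RRn (hg f) (hg g) (fun z hz => ?_) x x.2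
    have : (ext hw f z + ν z) - (ext hw g z + ν z) = ext hw f z - ext hw g z := by ring
    rw [this, ← Real.dist_eq]
    exact dist_coe_le_dist _
  obtain ⟨h, hhA, hfix⟩ := fixed_of_nonexpansive (AA_compact hw) (AA_convex hw _ _)
    (AA_nonempty hw hc hcw) T hTA hTn
  refine ⟨ext hw h, ext_continuous hw h, hhA.1, hhA.2.1, fun l => ?_⟩
  rw [← RRv (hg h) (hgsc h hhA) l]
  congr 1
  ext x
  simp only [mem_ofPred_eq]
  refine and_congr_right fun hx => ?_
  rw [← hTe h x hx, hfix]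

end Pool.Agent.Lib.MP_e55421_gt
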