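import Pool.Agent.Lib.MP_e55421_gt.Defs

namespace Pool.Agent.Lib.MP_e55421_gt

open Set MeasureTheory

abbrev Plane := EuclideanSpace ℝ (Fin 2)

def IsConvexBody (K : Set Plane) : Prop := Convex ℝ K ∧ IsCompact K ∧ (interior K).Nonempty

/-- chord function of `K` at `x` in direction `θ` (length of `K ∩ ℓ(x,θ)`) -/
noncomputable def chord (K : Set Plane) (x : Plane) (θ : ℝ) : ENNReal :=
  volume {t : ℝ | x + t • !₂[Real.cos θ, Real.sin θ] ∈ K}

noncomputable section geomaux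

/-- squared length -/
def gN (v : Plane) : ℝ := v 0 ^ 2 + v 1 ^ 2

/-- first coordinate -/
def gX (P : ℝ) (p v z : Plane) : ℝ := P * ((z 0 - p 0) * v 0 + (z 1 - p 1) * v 1) / gN v

/-- second coordinate -/
def gY (P : ℝ) (p v z : Plane) : ℝ := P * ((z 1 - p 1) * v 0 - (z 0 - p 0) * v 1) / gN v

/-- the inverse map -/
def gPhi (P : ℝ) (p v : Plane) (x y : ℝ) : Plane :=
  !₂[p 0 + (x * v 0 - y * v 1) / P, p 1 + (x * v 1 + y * v 0) / P]

theorem gX_phi {P : ℝ} {p v : Plane} (hP : P ≠ 0) (hv : gN v ≠ 0) (x y : ℝ) :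
    gX P p v (gPhi P p v x y) = x := by
  unfold gX
  rw [div_eq_iff hv]
  simp only [gPhi, gN, PiLp.toLp_apply, Matrix.cons_val_zero, Matrix.cons_val_one]
  field_simp
  ring

theorem gY_phi {P : ℝ} {p v : Plane} (hP : P ≠ 0) (hv : gN v ≠ 0) (x y : ℝ) :
    gY P p v (gPhi P p v x y) = y := by
  unfold gY
  rw [div_eq_iff hv]
  simp only [gPhi, gN, PiLp.toLp_apply, Matrix.cons_val_zero, Matrix.cons_val_one]
  field_simp
  ring

theorem gPhi_XY {P : ℝ} {p v : Plane} (hP : P ≠ 0) (hv : gN v ≠ 0) (z : Plane) :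
    gPhi P p v (gX P p v z) (gY P p v z) = z := by
  ext i
  fin_cases i
  · simp only [gPhi, gX, gY, PiLp.toLp_apply, Fin.zero_eta, Matrix.cons_val_zero]
    field_simp
    unfold gN
    ring
  · simp only [gPhi, gX, gY, PiLp.toLp_apply, Fin.mk_one, Matrix.cons_val_one,
      Matrix.cons_val_zero]
    field_simp
    unfold gN
    ring

theorem continuous_gX (P : ℝ) (p v : Plane) : Continuous (gX P p v) := by
  unfold gX
  fun_prop

theorem continuous_gY (P : ℝ) (p v : Plane) : Continuous (gY P p v) := by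
  unfold gY
  fun_prop

theorem gX_comb (P : ℝ) (p v z z' : Plane) {a b : ℝ} (hab : a + b = 1) :
    gX P p v (a • z + b • z') = a * gX P p v z + b * gX P p v z' := by
  obtain rfl : b = 1 - a := by linarith
  simp only [gX, PiLp.add_apply, PiLp.smul_apply, smul_eq_mul]
  ring

theorem gY_comb (P : ℝ) (p v z z' : Plane) {a b : ℝ} (hab : a + b = 1) :
    gY P p v (a • z + b • z') = a * gY P p v z + b * gY P p v z' := by
  obtain rfl : b = 1 - a := by linarith
  simp only [gY, PiLp.add_apply, PiLp.smul_apply, smul_eq_mul]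
  ring

/-- the body with profile `F`, shifted by `d` -/
def gBody (P : ℝ) (p v : Plane) (α β d : ℝ) (F : ℝ → ℝ) : Set Plane :=
  {z | d - gX P p v z ∈ Icc α β ∧ |gY P p v z| ≤ F (d - gX P p v z)}

theorem gBody_convex {P : ℝ} {p v : Plane} {α β d : ℝ} {F : ℝ → ℝ}
    (hF : ConcaveOn ℝ (Icc α β) F) : Convex ℝ (gBody P p v α β d F) := by
  intro z hz z' hz' a b ha hb hab
  obtain ⟨h1, h2⟩ := hz
  obtain ⟨h3, h4⟩ := hz'
  have e : d - gX P p v (a • z + b • z') = a * (d - gX P p v z) + b * (d - gX P p v z') := by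
    rw [gX_comb P p v z z' hab]
    have : b = 1 - a := by linarith
    subst this
    ring
  have h5 := hF.1 h1 h3 ha hb hab
  have h6 := hF.2 h1 h3 ha hb hab
  simp only [smul_eq_mul] at h5 h6
  refine ⟨by rw [e]; exact h5, ?_⟩
  rw [e, gY_comb P p v z z' hab]
  calc |a * gY P p v z + b * gY P p v z'| ≤ |a * gY P p v z| + |b * gY P p v z'| := abs_add_le _ _
    _ = a * |gY P p v z| + b * |gY P p v z'| := by
        rw [abs_mul, abs_mul, abs_of_nonneg ha, abs_of_nonneg hb]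
    _ ≤ a * F (d - gX P p v z) + b * F (d - gX P p v z') := by gcongr
    _ ≤ _ := h6

theorem gBody_compact {P : ℝ} {p v : Plane} (hP : P ≠ 0) (hv : gN v ≠ 0) {α β d : ℝ}
    {F : ℝ → ℝ} (hF : ContinuousOn F (Icc α β)) (hpos : ∀ u ∈ Icc α β, 0 < F u) :
    IsCompact (gBody P p v α β d F) := by
  have h1 : IsCompact ((Icc α β) ×ˢ (Icc (-1 : ℝ) 1)) := isCompact_Icc.prod isCompact_Icc
  have h2 : gBody P p v α β d F =
      (fun us : ℝ × ℝ => gPhi P p v (d - us.1) (us.2 * F us.1)) '' ((Icc α β) ×ˢ (Icc (-1 : ℝ) 1)) := by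
    ext z
    constructor
    · rintro ⟨h3, h4⟩
      have h5 := hpos _ h3
      refine ⟨(d - gX P p v z, gY P p v z / F (d - gX P p v z)), ⟨h3, ?_⟩, ?_⟩
      · rw [abs_le] at h4
        constructor
        · rw [le_div_iff₀ h5]; linarith [h4.1]
        · rw [div_le_iff₀ h5]; linarith [h4.2]
      · simp only
        rw [div_mul_cancel₀ _ h5.ne', sub_sub_cancel]
        exact gPhi_XY hP hv z
    · rintro ⟨⟨u, s⟩, ⟨h3, h4⟩, rfl⟩
      have h5 := hpos _ h3
      simp only [gBody, mem_ofPred_eq]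
      rw [gX_phi hP hv, gY_phi hP hv, sub_sub_cancel]
      refine ⟨h3, ?_⟩
      rw [abs_mul, abs_of_pos h5]
      have h6 : |s| ≤ 1 := abs_le.2 h4
      nlinarith
  rw [h2]
  refine h1.image_of_continuousOn ?_
  have h3 : Continuous fun xy : ℝ × ℝ => gPhi P p v xy.1 xy.2 := by
    unfold gPhi
    fun_prop
  refine h3.comp_continuousOn (f := fun us : ℝ × ℝ => (d - us.1, us.2 * F us.1)) ?_
  refine ContinuousOn.prodMk (by fun_prop) (ContinuousOn.mul (by fun_prop) ?_)
  exact hF.comp (by fun_prop) fun us hus => hus.1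

theorem gBody_interior {P : ℝ} {p v : Plane} (hP : P ≠ 0) (hv : gN v ≠ 0) {α β d : ℝ}
    (hαβ : α < β) {F : ℝ → ℝ} (hF : ContinuousOn F (Icc α β)) (hpos : ∀ u ∈ Icc α β, 0 < F u) :
    (interior (gBody P p v α β d F)).Nonempty := by
  obtain ⟨u₀, hu₀, hmin⟩ := isCompact_Icc.exists_isMinOn (nonempty_Icc.2 hαβ.le) hF
  have hδ := hpos u₀ hu₀
  refine ⟨gPhi P p v (d - (α + β) / 2) 0, ?_⟩
  rw [mem_interior]
  refine ⟨{z | d - gX P p v z ∈ Ioo α β} ∩ {z | |gY P p v z| < F u₀}, ?_, ?_, ?_⟩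
  · rintro z ⟨h1, h2⟩
    simp only [mem_ofPred_eq] at h1 h2
    have h3 : d - gX P p v z ∈ Icc α β := Ioo_subset_Icc_self h1
    exact ⟨h3, h2.le.trans (hmin h3)⟩
  · refine IsOpen.inter ?_ ?_
    · exact isOpen_Ioo.preimage (continuous_const.sub (continuous_gX P p v))
    · exact isOpen_lt (continuous_gY P p v).abs continuous_const
  · simp only [mem_inter_iff, mem_ofPred_eq]
    rw [gX_phi hP hv, gY_phi hP hv, sub_sub_cancel, abs_zero]
    exact ⟨⟨by linarith, by linarith⟩, hδ⟩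

theorem vol_affine {A : ℝ} (hA : A ≠ 0) (d : ℝ) (U : Set ℝ) :
    volume {t : ℝ | d - t * A ∈ U} = ENNReal.ofReal |(-A)⁻¹| * volume U := by
  have h1 : {t : ℝ | d - t * A ∈ U} = (fun t => t * (-A)) ⁻¹' ((fun y => y + d) ⁻¹' U) := by
    ext t
    simp only [mem_ofPred_eq, mem_preimage]
    rw [show t * -A + d = d - t * A by ring]
  rw [h1, Real.volume_preimage_mul_right (neg_ne_zero.2 hA), measure_preimage_add_right]

/-- the chords of a body from a point on the axis -/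
theorem chord_gBody {P : ℝ} {p v x : Plane} {α β d : ℝ} {F : ℝ → ℝ} (hY : gY P p v x = 0)
    (hd : d - gX P p v x ∉ Icc α β) (θ : ℝ) :
    ∃ (c : ENNReal) (τ : ℝ), 0 ≤ τ ∧
      (c = if P * (Real.cos θ * v 0 + Real.sin θ * v 1) / gN v = 0 then 0 else
        ENNReal.ofReal |(-(P * (Real.cos θ * v 0 + Real.sin θ * v 1) / gN v))⁻¹|) ∧
      τ = |P * (Real.sin θ * v 0 - Real.cos θ * v 1) / gN v /
        (P * (Real.cos θ * v 0 + Real.sin θ * v 1) / gN v)| ∧
      chord (gBody P p v α β d F) x θ =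
        c * volume {u : ℝ | u ∈ Icc α β ∧ |d - gX P p v x - u| * τ ≤ F u} := by
  set A := P * (Real.cos θ * v 0 + Real.sin θ * v 1) / gN v with hA
  set B := P * (Real.sin θ * v 0 - Real.cos θ * v 1) / gN v with hB
  have hXt : ∀ t : ℝ, gX P p v (x + t • !₂[Real.cos θ, Real.sin θ]) = gX P p v x + t * A := by
    intro t
    simp only [gX, hA, PiLp.add_apply, PiLp.smul_apply, smul_eq_mul, PiLp.toLp_apply,
      Matrix.cons_val_zero, Matrix.cons_val_one]
    ring
  have hYt : ∀ t : ℝ, gY P p v (x + t • !₂[Real.cos θ, Real.sin θ]) = t * B := by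
    intro t
    have : gY P p v (x + t • !₂[Real.cos θ, Real.sin θ]) = gY P p v x + t * B := by
      simp only [gY, hB, PiLp.add_apply, PiLp.smul_apply, smul_eq_mul, PiLp.toLp_apply,
        Matrix.cons_val_zero, Matrix.cons_val_one]
      ring
    rw [this, hY, zero_add]
  refine ⟨_, _, abs_nonneg _, rfl, rfl, ?_⟩
  set D := d - gX P p v x with hD
  have hset : {t : ℝ | x + t • !₂[Real.cos θ, Real.sin θ] ∈ gBody P p v α β d F} =
      {t : ℝ | D - t * A ∈ Icc α β ∧ |t * B| ≤ F (D - t * A)} := by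
    ext t
    simp only [gBody, mem_ofPred_eq, hXt, hYt, hD, sub_add_eq_sub_sub]
  unfold chord
  rw [hset]
  by_cases hA0 : A = 0
  · rw [if_pos hA0, zero_mul]
    have : {t : ℝ | D - t * A ∈ Icc α β ∧ |t * B| ≤ F (D - t * A)} = ∅ := by
      ext t
      simp only [mem_ofPred_eq, mem_empty_iff_false, iff_false, hA0, mul_zero, sub_zero]
      exact fun h => hd h.1
    rw [this, measure_empty]
  · rw [if_neg hA0, ← vol_affine hA0 D]
    congr 1
    ext t
    simp only [mem_ofPred_eq]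
    have : |D - (D - t * A)| * |B / A| = |t * B| := by
      rw [sub_sub_cancel, ← abs_mul]
      congr 1
      field_simp
    rw [this]

end geomaux

theorem geom {α β P q : ℝ} (hα : 0 < α) (hαβ : α < β) (hβ : β < q) (hqP : q < P) {f g : ℝ → ℝ}
    (hf : ContinuousOn f (Icc α β)) (hfc : ConcaveOn ℝ (Icc α β) f) (hfp : ∀ u ∈ Icc α β, 0 < f u)
    (hg : ContinuousOn g (Icc α β)) (hgc : ConcaveOn ℝ (Icc α β) g) (hgp : ∀ u ∈ Icc α β, 0 < g u)
    (h1 : ∀ u ∈ Icc α β, (P + q - u) * f u = (P - u) * g u)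
    (h2 : ∀ τ : ℝ, 0 ≤ τ → volume {u : ℝ | u ∈ Icc α β ∧ u * τ ≤ f u} =
      volume {u : ℝ | u ∈ Icc α β ∧ (q - u) * τ ≤ g u})
    (p₁ p₂ : Plane) (hp : p₁ ≠ p₂) :
    ∃ K L : Set Plane, IsConvexBody K ∧ IsConvexBody L ∧ Disjoint K L ∧
      p₁ ∉ K ∧ p₁ ∉ L ∧ p₂ ∉ K ∧ p₂ ∉ L ∧
      ∀ θ : ℝ, chord K p₁ θ = chord L p₁ θ ∧ chord K p₂ θ = chord L p₂ θ := by
  have hP : P ≠ 0 := by linarith
  set v : Plane := p₂ - p₁ with hv
  have hv0 : v 0 = p₂ 0 - p₁ 0 := by simp [hv]
  have hv1 : v 1 = p₂ 1 - p₁ 1 := by simp [hv]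
  have hN : gN v ≠ 0 := by
    intro h
    unfold gN at h
    have e0 : v 0 = 0 := by nlinarith [sq_nonneg (v 0), sq_nonneg (v 1)]
    have e1 : v 1 = 0 := by nlinarith [sq_nonneg (v 0), sq_nonneg (v 1)]
    apply hp
    ext i
    fin_cases i
    · simp only [Fin.zero_eta]; linarith
    · simp only [Fin.mk_one]; linarith
  have hX2 : gX P p₂ v p₂ = 0 := by simp [gX]
  have hY2 : gY P p₂ v p₂ = 0 := by simp [gY]
  have hX1 : gX P p₂ v p₁ = -P := by
    unfold gX
    rw [div_eq_iff hN]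
    unfold gN
    rw [hv0, hv1]
    ring
  have hY1 : gY P p₂ v p₁ = 0 := by
    unfold gY
    rw [hv0, hv1]
    ring
  have hd1 : (0 : ℝ) - gX P p₂ v p₁ ∉ Icc α β := by
    rw [hX1]; intro h; linarith [h.2]
  have hd2 : q - gX P p₂ v p₁ ∉ Icc α β := by
    rw [hX1]; intro h; linarith [h.2]
  have hd3 : (0 : ℝ) - gX P p₂ v p₂ ∉ Icc α β := by
    rw [hX2]; intro h; linarith [h.1]
  have hd4 : q - gX P p₂ v p₂ ∉ Icc α β := by
    rw [hX2]; intro h; linarith [h.2]
  refine ⟨gBody P p₂ v α β 0 f, gBody P p₂ v α β q g,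
    ⟨gBody_convex hfc, gBody_compact hP hN hf hfp, gBody_interior hP hN hαβ hf hfp⟩,
    ⟨gBody_convex hgc, gBody_compact hP hN hg hgp, gBody_interior hP hN hαβ hg hgp⟩,
    ?_, fun h => hd1 h.1, fun h => hd2 h.1, fun h => hd3 h.1, fun h => hd4 h.1, ?_⟩
  · rw [Set.disjoint_left]
    rintro z ⟨h3, _⟩ ⟨h4, _⟩
    linarith [h3.1, h4.2]
  · intro θ
    constructor
    · obtain ⟨c, τ, hτ, hc, hτ', e⟩ := chord_gBody (F := f) hY1 hd1 θ
      obtain ⟨c', τ', _, hc', hτ'', e'⟩ := chord_gBody (F := g) hY1 hd2 θ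
      obtain rfl : c' = c := hc'.trans hc.symm
      obtain rfl : τ' = τ := hτ''.trans hτ'.symm
      rw [e, e', hX1]
      congr 2
      ext u
      simp only [mem_ofPred_eq]
      refine and_congr_right fun hu => ?_
      have h3 : 0 < P - u := by linarith [hu.2]
      have h4 : 0 < P + q - u := by linarith [hu.2]
      have h5 := h1 u hu
      have e1 : |(0 : ℝ) - -P - u| = P - u := by
        rw [show (0 : ℝ) - -P - u = P - u by ring, abs_of_pos h3]
      have e2 : |q - -P - u| = P + q - u := by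
        rw [show q - -P - u = P + q - u by ring, abs_of_pos h4]
      rw [e1, e2]
      constructor
      · intro h6
        have h7 : (P - u) * ((P + q - u) * τ') ≤ (P - u) * g u := by
          rw [← h5]; nlinarith
        exact le_of_mul_le_mul_left h7 h3
      · intro h6
        have h7 : (P + q - u) * ((P - u) * τ') ≤ (P + q - u) * f u := by
          rw [h5]; nlinarith
        exact le_of_mul_le_mul_left h7 h4
    · obtain ⟨c, τ, hτ, hc, hτ', e⟩ := chord_gBody (F := f) hY2 hd3 θ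
      obtain ⟨c', τ', _, hc', hτ'', e'⟩ := chord_gBody (F := g) hY2 hd4 θ
      obtain rfl : c' = c := hc'.trans hc.symm
      obtain rfl : τ' = τ := hτ''.trans hτ'.symm
      rw [e, e', hX2]
      congr 1
      have e1 : {u : ℝ | u ∈ Icc α β ∧ |(0 : ℝ) - 0 - u| * τ' ≤ f u} =
          {u : ℝ | u ∈ Icc α β ∧ u * τ' ≤ f u} := by
        ext u
        simp only [mem_ofPred_eq]
        refine and_congr_right fun hu => ?_
        rw [show |(0 : ℝ) - 0 - u| = u by
          rw [sub_zero, zero_sub, abs_neg, abs_of_pos (by linarith [hu.1])]]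
      have e2 : {u : ℝ | u ∈ Icc α β ∧ |q - 0 - u| * τ' ≤ g u} =
          {u : ℝ | u ∈ Icc α β ∧ (q - u) * τ' ≤ g u} := by
        ext u
        simp only [mem_ofPred_eq]
        refine and_congr_right fun hu => ?_
        rw [show |q - 0 - u| = q - u by
          rw [sub_zero, abs_of_pos (by linarith [hu.2])]]
      rw [e1, e2]
      exact h2 τ' hτ

end Pool.Agent.Lib.MP_e55421_gt
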