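import Pool.Agent.Lib.MP_e55421_gt.Defs

/-! Task C for MP_e55421_gt: properties of the function `ν`. -/

namespace Pool.Agent.Lib.MP_e55421_gt

open Set MeasureTheory

noncomputable def nu' (u : ℝ) : ℝ := 1 / u - 1 / (241 - u) + 1 / (220 - u) + 1 / (21 - u)

noncomputable def nu'' (u : ℝ) : ℝ :=
  - 1 / u ^ 2 - 1 / (241 - u) ^ 2 + 1 / (220 - u) ^ 2 + 1 / (21 - u) ^ 2

theorem nu_hasDerivAt {u : ℝ} (h0 : 0 < u) (h1 : u < 21) : HasDerivAt nu (nu' u) u := by
  unfold nu
  have e1 : HasDerivAt (fun u : ℝ => Real.log u) (1 / u) u := by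
    simpa using Real.hasDerivAt_log h0.ne'
  have e2 : ∀ c : ℝ, u < c → HasDerivAt (fun u : ℝ => Real.log (c - u)) (- 1 / (c - u)) u := by
    intro c hc
    have := ((hasDerivAt_id u).const_sub c).log (by simpa using (sub_pos.2 hc).ne')
    simpa using this
  have e3 := ((e1.add (e2 241 (by linarith))).sub (e2 220 (by linarith))).sub (e2 21 h1)
  refine e3.congr_deriv ?_
  unfold nu'
  ring

theorem nu'_hasDerivAt {u : ℝ} (h0 : 0 < u) (h1 : u < 21) : HasDerivAt nu' (nu'' u) u := by
  unfold nu'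
  have e1 : HasDerivAt (fun u : ℝ => 1 / u) (-1 / u ^ 2) u := by
    have := hasDerivAt_inv h0.ne'
    simp only [one_div]
    refine this.congr_deriv ?_
    rw [neg_div, one_div]
  have e2 : ∀ c : ℝ, u < c → HasDerivAt (fun u : ℝ => 1 / (c - u)) (1 / (c - u) ^ 2) u := by
    intro c hc
    have := ((hasDerivAt_id u).const_sub c).fun_inv (by simpa using (sub_pos.2 hc).ne')
    simp only [one_div]
    refine this.congr_deriv ?_
    simp
  have e3 := ((e1.sub (e2 241 (by linarith))).add (e2 220 (by linarith))).add (e2 21 h1)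
  refine e3.congr_deriv ?_
  unfold nu''
  ring

theorem nu'_bounds {u : ℝ} (h1 : 10 - 1/20 ≤ u) (h2 : u ≤ 10 + 1/20) :
    0 ≤ nu' u ∧ nu' u ≤ 24/125 := by
  have e : nu' u = 21 / (u * (21 - u)) + 21 / ((220 - u) * (241 - u)) := by
    unfold nu'
    have a1 : u ≠ 0 := by linarith
    have a2 : (21 - u) ≠ 0 := by linarith
    have a3 : (220 - u) ≠ 0 := by linarith
    have a4 : (241 - u) ≠ 0 := by linarith
    field_simp
    ring
  rw [e]
  have b1 : (109 : ℝ) + 947/1000 ≤ u * (21 - u) := by nlinarith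
  have b2 : (48487 : ℝ) ≤ (220 - u) * (241 - u) := by nlinarith
  constructor
  · have p1 : 0 < u * (21 - u) := by linarith
    have p2 : 0 < (220 - u) * (241 - u) := by linarith
    positivity
  · have c1 : 21 / (u * (21 - u)) ≤ 21 / ((109 : ℝ) + 947/1000) := by
      gcongr
    have c2 : 21 / ((220 - u) * (241 - u)) ≤ 21 / (48487 : ℝ) := by
      gcongr
    refine (add_le_add c1 c2).trans (by norm_num)

theorem nu''_bound {u : ℝ} (h1 : 10 - 1/20 ≤ u) (h2 : u ≤ 10 + 1/20) :
    nu'' u ≤ - (3/2000) := by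
  unfold nu''
  have c1 : 1 / (10 + 1/20 : ℝ) ^ 2 ≤ 1 / u ^ 2 := by
    have : (0:ℝ) < u := by linarith
    gcongr
  have c2 : 0 ≤ 1 / (241 - u) ^ 2 := by positivity
  have c3 : 1 / (220 - u) ^ 2 ≤ 1 / (209 : ℝ) ^ 2 := by
    gcongr
    linarith
  have c4 : 1 / (21 - u) ^ 2 ≤ 1 / (10 + 19/20 : ℝ) ^ 2 := by
    gcongr
    linarith
  have c5 : -1 / u ^ 2 = - (1 / u ^ 2) := by ring
  rw [c5]
  have c6 : - (1 / (10 + 1/20 : ℝ) ^ 2) + 1 / (209 : ℝ) ^ 2 + 1 / (10 + 19/20 : ℝ) ^ 2 ≤ -(3/2000) := by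
    norm_num
  linarith

theorem nu_slope {a b : ℝ} (h1 : 10 - 1/20 ≤ a) (h2 : b ≤ 10 + 1/20) (hab : a ≤ b) :
    0 ≤ nu b - nu a ∧ nu b - nu a ≤ 24/125 * (b - a) := by
  rcases hab.eq_or_lt with rfl | hab
  · simp
  obtain ⟨c, hc, he⟩ := exists_hasDerivAt_eq_slope nu nu' hab
    (fun x hx => (nu_hasDerivAt (by linarith [hx.1]) (by linarith [hx.2])).continuousAt.continuousWithinAt)
    (fun x hx => nu_hasDerivAt (by linarith [hx.1]) (by linarith [hx.2]))
  have hb := nu'_bounds (u := c) (by linarith [hc.1]) (by linarith [hc.2])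
  have hpos : 0 < b - a := sub_pos.2 hab
  have e : nu b - nu a = nu' c * (b - a) := by
    rw [he]; field_simp
  rw [e]
  exact ⟨mul_nonneg hb.1 hpos.le, mul_le_mul_of_nonneg_right hb.2 hpos.le⟩

theorem nu_ten : nu 10 = 0 := by
  unfold nu
  have e1 : Real.log (241 - 10) = Real.log 21 + Real.log 11 := by
    rw [← Real.log_mul (by norm_num) (by norm_num)]; norm_num
  have e2 : Real.log (220 - 10) = Real.log 21 + Real.log 10 := by
    rw [← Real.log_mul (by norm_num) (by norm_num)]; norm_num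
  have e3 : Real.log (21 - 10) = Real.log 11 := by norm_num
  rw [e1, e2, e3]
  ring

theorem nu_lip {α : ℝ} (h1 : 10 - 1/20 ≤ α) (h2 : α ≤ 10) :
    ∀ x ∈ Icc (0:ℝ) (1/20), ∀ y ∈ Icc (0:ℝ) (1/20), x ≤ y →
      0 ≤ nu (α + y) - nu (α + x) ∧ nu (α + y) - nu (α + x) ≤ 24/125 * (y - x) := by
  intro x hx y hy hxy
  have := nu_slope (a := α + x) (b := α + y) (by linarith [hx.1]) (by linarith [hy.2])
    (by linarith)
  have e : α + y - (α + x) = y - x := by ring
  rwa [e] at this

theorem nu_SC {α : ℝ} (h1 : 10 - 1/20 ≤ α) (h2 : α ≤ 10) :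
    SC (3/2000) (1/20) (fun x => nu (α + x)) := by
  have hconc : ConcaveOn ℝ (Icc (0:ℝ) (1/20)) (fun x => nu (α + x) + 3/4000 * x ^ 2) := by
    have hd : ∀ x ∈ Icc (0:ℝ) (1/20),
        HasDerivAt (fun x => nu (α + x) + 3/4000 * x ^ 2) (nu' (α + x) + 3/2000 * x) x := by
      intro x hx
      have e1 : HasDerivAt (fun x => nu (α + x)) (nu' (α + x)) x :=
        (nu_hasDerivAt (u := α + x) (by linarith [hx.1]) (by linarith [hx.2])).comp_const_add α x
      have e2 : HasDerivAt (fun x : ℝ => 3/4000 * x ^ 2) (3/2000 * x) x := by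
        have := (hasDerivAt_pow 2 x).const_mul (3/4000 : ℝ)
        refine this.congr_deriv ?_
        simp
        ring
      exact e1.add e2
    have hd2 : ∀ x ∈ Icc (0:ℝ) (1/20),
        HasDerivAt (fun x => nu' (α + x) + 3/2000 * x) (nu'' (α + x) + 3/2000) x := by
      intro x hx
      have e1 : HasDerivAt (fun x => nu' (α + x)) (nu'' (α + x)) x :=
        (nu'_hasDerivAt (u := α + x) (by linarith [hx.1]) (by linarith [hx.2])).comp_const_add α x
      have e2 : HasDerivAt (fun x : ℝ => 3/2000 * x) (3/2000) x := by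
        simpa using (hasDerivAt_id x).const_mul (3/2000 : ℝ)
      exact e1.add e2
    refine concaveOn_of_hasDerivWithinAt2_nonpos (convex_Icc _ _)
      (f' := fun x => nu' (α + x) + 3/2000 * x) (f'' := fun x => nu'' (α + x) + 3/2000) ?_ ?_ ?_ ?_
    · intro x hx
      exact (hd x hx).continuousAt.continuousWithinAt
    · intro x hx
      exact (hd x (interior_subset hx)).hasDerivWithinAt
    · intro x hx
      exact (hd2 x (interior_subset hx)).hasDerivWithinAt
    · intro x hx
      have hx' := interior_subset hx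
      have := nu''_bound (u := α + x) (by linarith [hx'.1]) (by linarith [hx'.2])
      linarith
  intro x hx y hy t ht
  have h3 := hconc.2 hx hy ht.1 (sub_nonneg.2 ht.2) (by ring)
  simp only [smul_eq_mul] at h3
  show t * nu (α + x) + (1 - t) * nu (α + y) + 3/2000 / 2 * (t * (1 - t)) * (x - y) ^ 2 ≤
    nu (α + (t * x + (1 - t) * y))
  nlinarith [h3]

/-- There is an interval `[α, α + 1/20]` around `10` on which `ν` has mean zero. -/
theorem exists_alpha : ∃ α : ℝ, 10 - 1/20 ≤ α ∧ α ≤ 10 ∧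
    ∫ x in Icc (0:ℝ) (1/20), nu (α + x) = 0 := by
  let c : ℝ → ℝ := fun u => max (10 - 1/20) (min u (10 + 1/20))
  have hc : Continuous c := by fun_prop
  have hc1 : ∀ u, 10 - 1/20 ≤ c u := fun u => le_max_left _ _
  have hc2 : ∀ u, c u ≤ 10 + 1/20 := fun u => max_le (by norm_num) (min_le_right _ _)
  have hc3 : ∀ u, 10 - 1/20 ≤ u → u ≤ 10 + 1/20 → c u = u := by
    intro u h1 h2
    simp only [c]
    rw [min_eq_left h2, max_eq_right h1]
  have hg : Continuous fun u => nu (c u) := by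
    rw [continuous_iff_continuousAt]
    intro u
    have h1 : ContinuousAt nu (c u) :=
      (nu_hasDerivAt (by linarith [hc1 u]) (by linarith [hc2 u])).continuousAt
    exact ContinuousAt.comp (f := c) (g := nu) h1 hc.continuousAt
  let Φ : ℝ → ℝ := fun α => ∫ x in (0:ℝ)..(1/20), nu (c (α + x))
  have hΦ : Continuous Φ := by
    refine intervalIntegral.continuous_parametric_intervalIntegral_of_continuous'
      (f := fun α x => nu (c (α + x))) ?_ _ _
    exact hg.comp (by fun_prop)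
  have hle : (10 - 1/20 : ℝ) ≤ 10 := by norm_num
  have hint : ∀ α, IntervalIntegrable (fun x => nu (c (α + x))) volume 0 (1/20) := by
    intro α
    exact (hg.comp (by fun_prop)).intervalIntegrable _ _
  have h0 : Φ (10 - 1/20) ≤ 0 := by
    have : Φ (10 - 1/20) ≤ ∫ x in (0:ℝ)..(1/20), (0:ℝ) := by
      refine intervalIntegral.integral_mono_on (by norm_num) (hint _) (by simp) ?_
      intro x hx
      rw [hc3 _ (by linarith [hx.1]) (by linarith [hx.2])]
      have := (nu_slope (a := 10 - 1/20 + x) (b := 10) (by linarith [hx.1]) (by norm_num)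
        (by linarith [hx.2])).1
      rw [nu_ten] at this
      linarith
    simpa using this
  have h1 : 0 ≤ Φ 10 := by
    have : (∫ x in (0:ℝ)..(1/20), (0:ℝ)) ≤ Φ 10 := by
      refine intervalIntegral.integral_mono_on (by norm_num) (by simp) (hint _) ?_
      intro x hx
      rw [hc3 _ (by linarith [hx.1]) (by linarith [hx.2])]
      have := (nu_slope (a := 10) (b := 10 + x) (by norm_num) (by linarith [hx.2])
        (by linarith [hx.1])).1
      rw [nu_ten] at this
      linarith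
    simpa using this
  obtain ⟨α, hα, hα0⟩ := intermediate_value_Icc hle hΦ.continuousOn ⟨h0, h1⟩
  refine ⟨α, hα.1, hα.2, ?_⟩
  rw [integral_Icc_eq_integral_Ioc, ← intervalIntegral.integral_of_le (by norm_num)]
  refine Eq.trans ?_ hα0
  show ∫ x in (0:ℝ)..(1/20), nu (α + x) = ∫ x in (0:ℝ)..(1/20), nu (c (α + x))
  refine intervalIntegral.integral_congr ?_
  intro x hx
  rw [uIcc_of_le (by norm_num)] at hx
  show nu (α + x) = nu (c (α + x))
  rw [hc3 _ (by linarith [hx.1, hα.1]) (by linarith [hx.2, hα.2])]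

end Pool.Agent.Lib.MP_e55421_gt
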