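import Mathlib

/-!
# The decreasing rearrangement of a function on `[0,1]` through pairs of points

For a function `α` on `[0,1]` whose superlevel sets are intervals the decreasing rearrangement is
`w ↦ sup {min (α x) (α y) : y - x ≥ w}`.
-/

namespace MP_e55421_gt

open Set MeasureTheory

/-- Pairs `(x, y)` in `[0,1]²` with `y - x ≥ w`. -/
def Feas (w : ℝ) : Set (ℝ × ℝ) :=
  {z | z.1 ∈ Icc (0:ℝ) 1 ∧ z.2 ∈ Icc (0:ℝ) 1 ∧ w ≤ z.2 - z.1}

/-- The rearrangement. -/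
noncomputable def rearr (α : ℝ → ℝ) (w : ℝ) : ℝ :=
  sSup ((fun z : ℝ × ℝ => min (α z.1) (α z.2)) '' Feas w)

lemma feas_compact (w : ℝ) : IsCompact (Feas w) := by
  have h : Feas w = (Icc (0:ℝ) 1 ×ˢ Icc (0:ℝ) 1) ∩ {z : ℝ × ℝ | w ≤ z.2 - z.1} := by
    ext z
    simp only [Feas, Set.mem_ofPred_eq, Set.mem_inter_iff, Set.mem_prod]
    tauto
  rw [h]
  exact (isCompact_Icc.prod isCompact_Icc).inter_right
    (isClosed_le continuous_const (continuous_snd.sub continuous_fst))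

lemma feas_nonempty {w : ℝ} (hw : w ≤ 1) : (Feas w).Nonempty :=
  ⟨(0, 1), by simp [Feas, hw]⟩

lemma feas_cont {α : ℝ → ℝ} (hα : ContinuousOn α (Icc 0 1)) (w : ℝ) :
    ContinuousOn (fun z : ℝ × ℝ => min (α z.1) (α z.2)) (Feas w) := by
  have h1 : ContinuousOn (fun z : ℝ × ℝ => α z.1) (Feas w) :=
    hα.comp continuousOn_fst (fun z hz => hz.1)
  have h2 : ContinuousOn (fun z : ℝ × ℝ => α z.2) (Feas w) :=
    hα.comp continuousOn_snd (fun z hz => hz.2.1)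
  exact continuous_min.comp_continuousOn (h1.prodMk h2)

lemma rearr_attained {α : ℝ → ℝ} (hα : ContinuousOn α (Icc 0 1)) {w : ℝ} (hw : w ≤ 1) :
    ∃ z ∈ Feas w, rearr α w = min (α z.1) (α z.2) := by
  obtain ⟨z, hz, h⟩ := (feas_compact w).exists_sSup_image_eq (feas_nonempty hw) (feas_cont hα w)
  exact ⟨z, hz, h⟩

lemma le_rearr {α : ℝ → ℝ} (hα : ContinuousOn α (Icc 0 1)) {w : ℝ} {z : ℝ × ℝ}
    (hz : z ∈ Feas w) : min (α z.1) (α z.2) ≤ rearr α w := by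
  apply le_csSup
  · exact (feas_compact w).bddAbove_image (feas_cont hα w)
  · exact ⟨z, hz, rfl⟩

lemma feas_mono {w w' : ℝ} (h : w ≤ w') : Feas w' ⊆ Feas w := fun _ hz => ⟨hz.1, hz.2.1, h.trans hz.2.2⟩

lemma rearr_anti {α : ℝ → ℝ} (hα : ContinuousOn α (Icc 0 1)) {w w' : ℝ} (h : w ≤ w') (hw' : w' ≤ 1) :
    rearr α w' ≤ rearr α w := by
  obtain ⟨z, hz, e⟩ := rearr_attained hα hw'
  rw [e]
  exact le_rearr hα (feas_mono h hz)

lemma feas_shift {w w' : ℝ} (h0 : 0 ≤ w) (h : w ≤ w') (hw' : w' ≤ 1) {z : ℝ × ℝ} (hz : z ∈ Feas w) :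
    ∃ z' ∈ Feas w', |z'.1 - z.1| ≤ w' - w ∧ |z'.2 - z.2| ≤ w' - w := by
  obtain ⟨⟨h1, h2⟩, ⟨h3, h4⟩, h5⟩ := hz
  by_cases hc : w' ≤ z.2 - z.1
  · refine ⟨z, ⟨⟨h1, h2⟩, ⟨h3, h4⟩, hc⟩, ?_, ?_⟩ <;> simp [h]
  · push Not at hc
    by_cases hd : z.1 + w' ≤ 1
    · refine ⟨(z.1, z.1 + w'), ⟨⟨h1, h2⟩, ⟨by simp; linarith, by simpa using hd⟩, by simp⟩, ?_, ?_⟩
      · simp [h]
      · rw [abs_le]; constructor <;> simp <;> linarith
    · push Not at hd
      refine ⟨(1 - w', 1), ⟨⟨by simp; linarith, by simp; linarith⟩, ⟨by simp, by simp⟩, by simp⟩, ?_, ?_⟩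
      · rw [abs_le]; constructor <;> simp <;> linarith
      · rw [abs_le]; constructor <;> simp <;> linarith

lemma rearr_modulus {α : ℝ → ℝ} (hα : ContinuousOn α (Icc 0 1)) {δ ε : ℝ}
    (hm : ∀ x ∈ Icc (0:ℝ) 1, ∀ y ∈ Icc (0:ℝ) 1, |x - y| ≤ δ → |α x - α y| ≤ ε)
    {w w' : ℝ} (hw : w ∈ Icc (0:ℝ) 1) (hw' : w' ∈ Icc (0:ℝ) 1) (hd : |w - w'| ≤ δ) :
    |rearr α w - rearr α w'| ≤ ε := by
  wlog h : w ≤ w' generalizing w w'
  · push Not at h
    rw [abs_sub_comm]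
    rw [abs_sub_comm] at hd
    exact this hw' hw hd h.le
  · obtain ⟨z, hz, e⟩ := rearr_attained hα hw.2
    obtain ⟨z', hz', h1, h2⟩ := feas_shift hw.1 h hw'.2 hz
    have hdd : w' - w ≤ δ := by rw [abs_sub_comm, abs_of_nonneg (by linarith)] at hd; exact hd
    have a1 := hm z'.1 hz'.1 z.1 hz.1 (h1.trans hdd)
    have a2 := hm z'.2 hz'.2.1 z.2 hz.2.1 (h2.trans hdd)
    have b := le_rearr hα hz'
    have c := rearr_anti hα h hw'.2
    rw [abs_of_nonneg (by linarith)]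
    have : min (α z.1) (α z.2) - ε ≤ min (α z'.1) (α z'.2) := by
      rw [abs_le] at a1 a2
      refine le_min ?_ ?_
      · have := min_le_left (α z.1) (α z.2); linarith [a1.1]
      · have := min_le_right (α z.1) (α z.2); linarith [a2.1]
    rw [e]; linarith

lemma rearr_nonexp {α β : ℝ → ℝ} (hα : ContinuousOn α (Icc 0 1)) (hβ : ContinuousOn β (Icc 0 1))
    {ε : ℝ} (h : ∀ x ∈ Icc (0:ℝ) 1, |α x - β x| ≤ ε) {w : ℝ} (hw : w ≤ 1) :
    |rearr α w - rearr β w| ≤ ε := by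
  have key : ∀ {α β : ℝ → ℝ}, ContinuousOn α (Icc 0 1) → ContinuousOn β (Icc 0 1) →
      (∀ x ∈ Icc (0:ℝ) 1, |α x - β x| ≤ ε) → rearr α w - rearr β w ≤ ε := by
    intro α β hα hβ h
    obtain ⟨z, hz, e⟩ := rearr_attained hα hw
    have a1 := h z.1 hz.1
    have a2 := h z.2 hz.2.1
    have b := le_rearr hβ hz
    have : min (α z.1) (α z.2) - ε ≤ min (β z.1) (β z.2) := by
      rw [abs_le] at a1 a2
      refine le_min ?_ ?_
      · have := min_le_left (α z.1) (α z.2); linarith [a1.2]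
      · have := min_le_right (α z.1) (α z.2); linarith [a2.2]
    rw [e]; linarith
  rw [abs_le]
  constructor
  · have := key hβ hα (fun x hx => by rw [abs_sub_comm]; exact h x hx); linarith
  · exact key hα hβ h

lemma rearr_exp_concave {α : ℝ → ℝ} (hα : ContinuousOn α (Icc 0 1))
    (hc : ConcaveOn ℝ (Icc (0:ℝ) 1) (fun x => Real.exp (α x))) :
    ConcaveOn ℝ (Icc (0:ℝ) 1) (fun x => Real.exp (rearr α x)) := by
  refine ⟨convex_Icc 0 1, ?_⟩
  intro w1 hw1 w2 hw2 s t hs ht hst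
  obtain ⟨z1, hz1, e1⟩ := rearr_attained hα hw1.2
  obtain ⟨z2, hz2, e2⟩ := rearr_attained hα hw2.2
  have hz : (s * z1.1 + t * z2.1, s * z1.2 + t * z2.2) ∈ Feas (s * w1 + t * w2) := by
    refine ⟨?_, ?_, ?_⟩
    · exact (convex_Icc (0:ℝ) 1) hz1.1 hz2.1 hs ht hst
    · exact (convex_Icc (0:ℝ) 1) hz1.2.1 hz2.2.1 hs ht hst
    · have h1 := mul_le_mul_of_nonneg_left hz1.2.2 hs
      have h2 := mul_le_mul_of_nonneg_left hz2.2.2 ht
      simp only
      nlinarith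
  have hb := le_rearr hα hz
  have c1 := hc.2 hz1.1 hz2.1 hs ht hst
  have c2 := hc.2 hz1.2.1 hz2.2.1 hs ht hst
  simp only [smul_eq_mul] at c1 c2 ⊢
  rw [e1, e2]
  refine le_trans ?_ (Real.exp_le_exp.mpr hb)
  simp only
  have m1 : Real.exp (min (α z1.1) (α z1.2)) ≤ Real.exp (α z1.1) := Real.exp_le_exp.mpr (min_le_left _ _)
  have m2 : Real.exp (min (α z1.1) (α z1.2)) ≤ Real.exp (α z1.2) := Real.exp_le_exp.mpr (min_le_right _ _)
  have m3 : Real.exp (min (α z2.1) (α z2.2)) ≤ Real.exp (α z2.1) := Real.exp_le_exp.mpr (min_le_left _ _)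
  have m4 : Real.exp (min (α z2.1) (α z2.2)) ≤ Real.exp (α z2.2) := Real.exp_le_exp.mpr (min_le_right _ _)
  have q1 := mul_le_mul_of_nonneg_left m1 hs
  have q2 := mul_le_mul_of_nonneg_left m2 hs
  have q3 := mul_le_mul_of_nonneg_left m3 ht
  have q4 := mul_le_mul_of_nonneg_left m4 ht
  rcases min_cases (α (s * z1.1 + t * z2.1)) (α (s * z1.2 + t * z2.2)) with ⟨h, _⟩ | ⟨h, _⟩
  · rw [h]; linarith
  · rw [h]; linarith

/-- Level sets of the rearrangement have the same measure. -/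
lemma rearr_level {α : ℝ → ℝ} (hα : ContinuousOn α (Icc 0 1)) (ℓ : ℝ)
    (hconv : Convex ℝ {x ∈ Icc (0:ℝ) 1 | ℓ ≤ α x}) :
    volume {w ∈ Icc (0:ℝ) 1 | ℓ ≤ rearr α w} = volume {x ∈ Icc (0:ℝ) 1 | ℓ ≤ α x} := by
  set S := {x ∈ Icc (0:ℝ) 1 | ℓ ≤ α x} with hS
  have hScl : IsClosed S := by
    have : S = Icc (0:ℝ) 1 ∩ α ⁻¹' (Ici ℓ) := by
      ext x; simp [hS]
    rw [this]
    exact hα.preimage_isClosed_of_isClosed isClosed_Icc isClosed_Ici
  have hSb : S ⊆ Icc 0 1 := fun x hx => hx.1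
  have hScpt : IsCompact S := isCompact_Icc.of_isClosed_subset hScl hSb
  rcases S.eq_empty_or_nonempty with he | hne
  · rw [he]
    have : {w ∈ Icc (0:ℝ) 1 | ℓ ≤ rearr α w} = ∅ := by
      rw [Set.eq_empty_iff_forall_notMem]
      rintro w ⟨hw, hl⟩
      obtain ⟨z, hz, e⟩ := rearr_attained hα hw.2
      have : z.1 ∈ S := ⟨hz.1, by
        have := min_le_left (α z.1) (α z.2); linarith⟩
      rw [he] at this
      exact this
    rw [this]
  · have hSI : S = Icc (sInf S) (sSup S) := by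
      have hpc : IsPreconnected S := hconv.isPreconnected
      exact eq_Icc_of_connected_compact ⟨hne, hpc⟩ hScpt
    set p := sInf S
    set q := sSup S
    have hpq : p ≤ q := by
      have := hne
      rw [hSI] at this
      exact nonempty_Icc.mp this
    have hpS : p ∈ S := by rw [hSI]; exact ⟨le_rfl, hpq⟩
    have hqS : q ∈ S := by rw [hSI]; exact ⟨hpq, le_rfl⟩
    have hL : {w ∈ Icc (0:ℝ) 1 | ℓ ≤ rearr α w} = Icc 0 (q - p) := by
      ext w
      constructor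
      · rintro ⟨hw, hl⟩
        obtain ⟨z, hz, e⟩ := rearr_attained hα hw.2
        have h1 : z.1 ∈ S := ⟨hz.1, by
          have := min_le_left (α z.1) (α z.2); linarith⟩
        have h2 : z.2 ∈ S := ⟨hz.2.1, by
          have := min_le_right (α z.1) (α z.2); linarith⟩
        rw [hSI] at h1 h2
        exact ⟨hw.1, by have := hz.2.2; linarith [h1.1, h2.2]⟩
      · rintro ⟨h0, h1⟩
        have hw1 : w ≤ 1 := by linarith [hqS.1.2, hpS.1.1]
        refine ⟨⟨h0, hw1⟩, ?_⟩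
        have hz : (p, q) ∈ Feas w := ⟨hpS.1, hqS.1, h1⟩
        exact le_trans (le_min hpS.2 hqS.2) (le_rearr hα hz)
    rw [hL, hSI]
    simp

end MP_e55421_gt
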