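import Pool.Agent.Lib.MP_e55421_gt.Defs

namespace Pool.Agent.Lib.MP_e55421_gt

open Set MeasureTheory

theorem RR_continuous {w : ℝ} {g : ℝ → ℝ} (hg : Continuous g) : Continuous (RR w g) := by
  unfold RR
  refine IsCompact.continuous_sSup
    (f := fun (m t : ℝ) => min (g (t * (w - m))) (g (t * (w - m) + m))) isCompact_Icc ?_
  change Continuous fun p : ℝ × ℝ =>
    min (g (p.2 * (w - p.1))) (g (p.2 * (w - p.1) + p.1))
  fun_prop

theorem RR_le {w m z : ℝ} {g : ℝ → ℝ} (hg : Continuous g) (hm : m ∈ Icc (0:ℝ) w)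
    (hz : z ∈ Icc (0:ℝ) (w - m)) : min (g z) (g (z + m)) ≤ RR w g m := by
  have hb : BddAbove ((fun t : ℝ => min (g (t * (w - m))) (g (t * (w - m) + m))) ''
      Icc (0:ℝ) 1) := by
    refine (isCompact_Icc.image ?_).bddAbove
    fun_prop
  rcases eq_or_lt_of_le hm.2 with h | h
  · have hz0 : z = 0 := by
      have := hz.2
      have := hz.1
      linarith
    refine le_csSup hb ⟨0, ⟨le_rfl, zero_le_one⟩, ?_⟩
    simp [hz0]
  · have hwm : 0 < w - m := by linarith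
    refine le_csSup hb ⟨z / (w - m), ⟨div_nonneg hz.1 hwm.le, ?_⟩, ?_⟩
    · rw [div_le_one hwm]; exact hz.2
    · simp only
      rw [div_mul_cancel₀ _ hwm.ne']

theorem RR_attained {w m : ℝ} {g : ℝ → ℝ} (hg : Continuous g) (hm : m ∈ Icc (0:ℝ) w) :
    ∃ z ∈ Icc (0:ℝ) (w - m), RR w g m = min (g z) (g (z + m)) := by
  obtain ⟨t, ht, he⟩ := isCompact_Icc.exists_sSup_image_eq (s := Icc (0:ℝ) 1)
    ⟨0, ⟨le_rfl, zero_le_one⟩⟩
    (f := fun t : ℝ => min (g (t * (w - m))) (g (t * (w - m) + m)))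
    (Continuous.continuousOn (by fun_prop))
  have hwm : 0 ≤ w - m := by linarith [hm.2]
  exact ⟨t * (w - m), ⟨mul_nonneg ht.1 hwm, mul_le_of_le_one_left hwm ht.2⟩, he⟩

theorem RR_near {w ε : ℝ} {g g' : ℝ → ℝ} (hg : Continuous g) (hg' : Continuous g')
    (h : ∀ x ∈ Icc (0:ℝ) w, |g x - g' x| ≤ ε) :
    ∀ m ∈ Icc (0:ℝ) w, |RR w g m - RR w g' m| ≤ ε := by
  intro m hm
  have key : ∀ {g₁ g₂ : ℝ → ℝ}, Continuous g₁ → Continuous g₂ →
      (∀ x ∈ Icc (0:ℝ) w, g₁ x ≤ g₂ x + ε) → RR w g₁ m ≤ RR w g₂ m + ε := by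
    intro g₁ g₂ h1 h2 h3
    obtain ⟨z, hz, he⟩ := RR_attained h1 hm
    have h4 := RR_le h2 hm hz
    have h5 : z ∈ Icc (0:ℝ) w := ⟨hz.1, by linarith [hz.2, hm.1]⟩
    have h6 : z + m ∈ Icc (0:ℝ) w := ⟨by linarith [hz.1, hm.1], by linarith [hz.2]⟩
    have h7 := h3 z h5
    have h8 := h3 (z + m) h6
    rw [he]
    rcases min_cases (g₂ z) (g₂ (z + m)) with ⟨h9, -⟩ | ⟨h9, -⟩
    · linarith [min_le_left (g₁ z) (g₁ (z + m))]
    · linarith [min_le_right (g₁ z) (g₁ (z + m))]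
  rw [abs_sub_le_iff]
  constructor
  · have := key hg hg' (fun x hx => by linarith [(abs_sub_le_iff.1 (h x hx)).1])
    linarith
  · have := key hg' hg (fun x hx => by linarith [(abs_sub_le_iff.1 (h x hx)).2])
    linarith

theorem SC.between {κ w : ℝ} {g : ℝ → ℝ} (hκ : 0 ≤ κ) (hsc : SC κ w g) {x y z : ℝ}
    (hx : x ∈ Icc (0:ℝ) w) (hy : y ∈ Icc (0:ℝ) w) (h1 : x ≤ z) (h2 : z ≤ y) :
    min (g x) (g y) ≤ g z := by
  rcases eq_or_lt_of_le (h1.trans h2) with h | h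
  · have h3 : z = x := le_antisymm (by linarith) h1
    rw [h3]
    exact min_le_left _ _
  · have hyx : 0 < y - x := by linarith
    set t : ℝ := (y - z) / (y - x) with ht
    have ht0 : 0 ≤ t := div_nonneg (by linarith) hyx.le
    have ht1 : t ≤ 1 := by
      rw [ht, div_le_one hyx]; linarith
    have h3 := hsc x hx y hy t ⟨ht0, ht1⟩
    have h4 : t * x + (1 - t) * y = z := by
      rw [ht]; field_simp; ring
    rw [h4] at h3
    have h5 : 0 ≤ κ / 2 * (t * (1 - t)) * (x - y) ^ 2 := by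
      have : 0 ≤ 1 - t := by linarith
      positivity
    have h6 : t * min (g x) (g y) ≤ t * g x := mul_le_mul_of_nonneg_left (min_le_left _ _) ht0
    have h7 : (1 - t) * min (g x) (g y) ≤ (1 - t) * g y :=
      mul_le_mul_of_nonneg_left (min_le_right _ _) (by linarith)
    linarith

theorem RR_antitone_lip {w M κ : ℝ} {g : ℝ → ℝ} (hg : Continuous g) (hκ : 0 ≤ κ) (hsc : SC κ w g)
    (hL : ∀ x ∈ Icc (0:ℝ) w, ∀ y ∈ Icc (0:ℝ) w, |g x - g y| ≤ M * |x - y|) :
    ∀ x ∈ Icc (0:ℝ) w, ∀ y ∈ Icc (0:ℝ) w, x ≤ y →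
      RR w g y ≤ RR w g x ∧ RR w g x - RR w g y ≤ M * (y - x) := by
  intro x hx y hy hxy
  constructor
  · obtain ⟨z, hz, he⟩ := RR_attained hg hy
    have hz1 : z ∈ Icc (0:ℝ) w := ⟨hz.1, by linarith [hz.2, hy.1]⟩
    have hz2 : z + y ∈ Icc (0:ℝ) w := ⟨by linarith [hz.1, hy.1], by linarith [hz.2]⟩
    have h1 := SC.between hκ hsc hz1 hz2 (z := z + x) (by linarith [hx.1]) (by linarith)
    have h2 := RR_le hg hx (z := z) ⟨hz.1, by linarith [hz.2]⟩
    rw [he]
    exact (le_min (min_le_left _ _) h1).trans h2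
  · rcases eq_or_lt_of_le hxy with h | h
    · subst h; simp
    · have hM : 0 ≤ M := by
        have h1 := hL x hx y hy
        have h2 : 0 < |x - y| := abs_pos.2 (by linarith)
        by_contra h3
        have h3 : M < 0 := not_le.1 h3
        have h4 : M * |x - y| < 0 := mul_neg_of_neg_of_pos h3 h2
        linarith [abs_nonneg (g x - g y)]
      obtain ⟨z, hz, he⟩ := RR_attained hg hx
      have hz' : min z (w - y) ∈ Icc (0:ℝ) (w - y) :=
        ⟨le_min hz.1 (by linarith [hy.2]), min_le_right _ _⟩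
      have h1 := RR_le hg hy hz'
      have hz1 : z ∈ Icc (0:ℝ) w := ⟨hz.1, by linarith [hz.2, hx.1]⟩
      have hz2 : z + x ∈ Icc (0:ℝ) w := ⟨by linarith [hz.1, hx.1], by linarith [hz.2]⟩
      have hz3 : min z (w - y) ∈ Icc (0:ℝ) w := ⟨hz'.1, by linarith [hz'.2, hy.1]⟩
      have hz4 : min z (w - y) + y ∈ Icc (0:ℝ) w :=
        ⟨by linarith [hz'.1, hy.1], by linarith [hz'.2]⟩
      have h2 : |z - min z (w - y)| ≤ y - x := by
        rw [abs_le]
        rcases min_cases z (w - y) with ⟨h3, h4⟩ | ⟨h3, h4⟩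
        · rw [h3]; constructor <;> linarith
        · rw [h3]; constructor <;> linarith [hz.2]
      have h3 : |(z + x) - (min z (w - y) + y)| ≤ y - x := by
        rw [abs_le]
        rcases min_cases z (w - y) with ⟨h3, h4⟩ | ⟨h3, h4⟩
        · rw [h3]; constructor <;> linarith
        · rw [h3]; constructor <;> linarith [hz.2]
      have h4 := (abs_le.1 ((hL z hz1 _ hz3).trans (mul_le_mul_of_nonneg_left h2 hM))).2
      have h5 := (abs_le.1 ((hL _ hz2 _ hz4).trans (mul_le_mul_of_nonneg_left h3 hM))).2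
      have h6 := min_le_left (g z) (g (z + x))
      have h7 := min_le_right (g z) (g (z + x))
      rcases min_cases (g (min z (w - y))) (g (min z (w - y) + y)) with ⟨h8, -⟩ | ⟨h8, -⟩
      · rw [h8] at h1
        rw [he]
        linarith
      · rw [h8] at h1
        rw [he]
        linarith

/-- equimeasurability -/
theorem RR_volume {w κ : ℝ} {g : ℝ → ℝ} (hw : 0 ≤ w) (hg : Continuous g) (hκ : 0 ≤ κ)
    (hsc : SC κ w g) (l : ℝ) :
    volume {m : ℝ | m ∈ Icc (0:ℝ) w ∧ l ≤ RR w g m} =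
      volume {x : ℝ | x ∈ Icc (0:ℝ) w ∧ l ≤ g x} := by
  set S : Set ℝ := {x : ℝ | x ∈ Icc (0:ℝ) w ∧ l ≤ g x} with hS
  have hScomp : IsCompact S := by
    have : S = Icc (0:ℝ) w ∩ g ⁻¹' (Ici l) := rfl
    rw [this]
    exact isCompact_Icc.inter_right (isClosed_Ici.preimage hg)
  rcases S.eq_empty_or_nonempty with hE | hne
  · have h1 : {m : ℝ | m ∈ Icc (0:ℝ) w ∧ l ≤ RR w g m} = ∅ := by
      rw [eq_empty_iff_forall_notMem]
      rintro m ⟨hm, hl⟩
      obtain ⟨z, hz, he⟩ := RR_attained hg hm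
      have h2 : z ∈ S := ⟨⟨hz.1, by linarith [hz.2, hm.1]⟩,
        hl.trans (he.le.trans (min_le_left _ _))⟩
      rw [hE] at h2
      exact h2
    rw [h1, hE]
  · obtain ⟨a, ha, haS⟩ := hScomp.exists_isLeast hne
    obtain ⟨b, hb, hbS⟩ := hScomp.exists_isGreatest hne
    have hSab : S = Icc a b := by
      apply Subset.antisymm
      · intro x hx
        exact ⟨haS hx, hbS hx⟩
      · rintro x ⟨h1, h2⟩
        refine ⟨⟨ha.1.1.trans h1, h2.trans hb.1.2⟩, ?_⟩
        exact (le_min ha.2 hb.2).trans (SC.between hκ hsc ha.1 hb.1 h1 h2)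
    have hR : {m : ℝ | m ∈ Icc (0:ℝ) w ∧ l ≤ RR w g m} = Icc 0 (b - a) := by
      apply Subset.antisymm
      · rintro m ⟨hm, hl⟩
        obtain ⟨z, hz, he⟩ := RR_attained hg hm
        have h1 : z ∈ S := ⟨⟨hz.1, by linarith [hz.2, hm.1]⟩,
          hl.trans (he.le.trans (min_le_left _ _))⟩
        have h2 : z + m ∈ S := ⟨⟨by linarith [hz.1, hm.1], by linarith [hz.2]⟩,
          hl.trans (he.le.trans (min_le_right _ _))⟩
        exact ⟨hm.1, by linarith [haS h1, hbS h2]⟩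
      · rintro m ⟨h1, h2⟩
        have ham : a + m ∈ S := by
          rw [hSab]; exact ⟨by linarith, by linarith⟩
        have hmw : m ∈ Icc (0:ℝ) w := ⟨h1, by linarith [ham.1.2, ha.1.1]⟩
        refine ⟨hmw, ?_⟩
        exact (le_min ha.2 ham.2).trans
          (RR_le hg hmw (z := a) ⟨ha.1.1, by linarith [ham.1.2]⟩)
    rw [hR, hSab, Real.volume_Icc, Real.volume_Icc, sub_zero]

theorem RR_integral {w κ : ℝ} {g : ℝ → ℝ} (hw : 0 ≤ w) (hg : Continuous g) (hκ : 0 ≤ κ)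
    (hsc : SC κ w g) : ∫ m in Icc (0:ℝ) w, RR w g m = ∫ x in Icc (0:ℝ) w, g x := by
  set μ : Measure ℝ := volume.restrict (Icc (0:ℝ) w) with hμ
  have hR := RR_continuous (w := w) hg
  have hmap : μ.map (RR w g) = μ.map g := by
    refine Measure.ext_of_Ici _ _ fun l => ?_
    rw [Measure.map_apply hR.measurable measurableSet_Ici,
      Measure.map_apply hg.measurable measurableSet_Ici, hμ,
      Measure.restrict_apply (hR.measurable measurableSet_Ici),
      Measure.restrict_apply (hg.measurable measurableSet_Ici)]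
    have h1 : RR w g ⁻¹' Ici l ∩ Icc 0 w = {m : ℝ | m ∈ Icc (0:ℝ) w ∧ l ≤ RR w g m} := by
      ext m; simp [and_comm]
    have h2 : g ⁻¹' Ici l ∩ Icc 0 w = {m : ℝ | m ∈ Icc (0:ℝ) w ∧ l ≤ g m} := by
      ext m; simp [and_comm]
    rw [h1, h2]
    exact RR_volume hw hg hκ hsc l
  have h1 : ∫ m, RR w g m ∂μ = ∫ y, y ∂(μ.map (RR w g)) :=
    (integral_map hR.measurable.aemeasurable aestronglyMeasurable_id).symm
  have h2 : ∫ m, g m ∂μ = ∫ y, y ∂(μ.map g) :=
    (integral_map hg.measurable.aemeasurable aestronglyMeasurable_id).symm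
  rw [h1, h2, hmap]

end Pool.Agent.Lib.MP_e55421_gt
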