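import Pool.Agent.Lib.MP_e55421_gt.Defs

namespace Pool.Agent.Lib.MP_e55421_gt

open Set MeasureTheory

private theorem rb_le {w m z : ℝ} {g : ℝ → ℝ} (hg : Continuous g) (hm : m ∈ Icc (0:ℝ) w)
    (hz : z ∈ Icc (0:ℝ) (w - m)) : min (g z) (g (z + m)) ≤ RR w g m := by
  have hbdd : BddAbove ((fun t : ℝ => min (g (t * (w - m))) (g (t * (w - m) + m))) '' Icc (0:ℝ) 1) := by
    apply (isCompact_Icc.image _).bddAbove
    fun_prop
  rcases eq_or_lt_of_le (sub_nonneg.2 hm.2) with h | h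
  · have hz0 : z = 0 := le_antisymm (h ▸ hz.2) hz.1
    refine le_csSup hbdd ⟨0, ⟨le_rfl, zero_le_one⟩, ?_⟩
    simp [hz0]
  · refine le_csSup hbdd ⟨z / (w - m), ⟨div_nonneg hz.1 h.le, (div_le_one h).2 hz.2⟩, ?_⟩
    have : z / (w - m) * (w - m) = z := div_mul_cancel₀ _ h.ne'
    simp [this]

private theorem rb_attained {w m : ℝ} {g : ℝ → ℝ} (hg : Continuous g) (hm : m ∈ Icc (0:ℝ) w) :
    ∃ z ∈ Icc (0:ℝ) (w - m), RR w g m = min (g z) (g (z + m)) := by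
  have hc : IsCompact ((fun t : ℝ => min (g (t * (w - m))) (g (t * (w - m) + m))) '' Icc (0:ℝ) 1) := by
    apply isCompact_Icc.image
    fun_prop
  have hne : ((fun t : ℝ => min (g (t * (w - m))) (g (t * (w - m) + m))) '' Icc (0:ℝ) 1).Nonempty :=
    (nonempty_Icc.2 zero_le_one).image _
  obtain ⟨t, ht, hts⟩ := hc.sSup_mem hne
  have hwm : 0 ≤ w - m := sub_nonneg.2 hm.2
  refine ⟨t * (w - m), ⟨mul_nonneg ht.1 hwm, ?_⟩, hts.symm⟩
  nlinarith [ht.2]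

private theorem rb_strict {w κ : ℝ} {g : ℝ → ℝ} (hκ : 0 < κ) (hsc : SC κ w g) {x y u l : ℝ}
    (hx : x ∈ Icc (0:ℝ) w) (hy : y ∈ Icc (0:ℝ) w) (h1 : x < u) (h2 : u < y) (hlx : l ≤ g x)
    (hly : l ≤ g y) : l < g u := by
  have hxy : 0 < y - x := by linarith
  set s := (y - u) / (y - x) with hs
  have hs0 : 0 < s := div_pos (by linarith) hxy
  have hs1 : s < 1 := (div_lt_one hxy).2 (by linarith)
  have hsu : s * x + (1 - s) * y = u := by
    have : s * (y - x) = y - u := div_mul_cancel₀ _ hxy.ne'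
    linarith
  have h := hsc x hx y hy s ⟨hs0.le, hs1.le⟩
  rw [hsu] at h
  have hpos : 0 < κ / 2 * (s * (1 - s)) * (x - y) ^ 2 := by
    have : 0 < (x - y) ^ 2 := by
      have : x - y ≠ 0 := by linarith
      positivity
    have h3 : 0 < s * (1 - s) := mul_pos hs0 (by linarith)
    positivity
  nlinarith [mul_le_mul_of_nonneg_left hlx hs0.le,
    mul_le_mul_of_nonneg_left hly (sub_nonneg.2 hs1.le)]

/-- the level set at the level `RR m` is exactly an interval of length `m` -/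
private theorem rb_level {w κ : ℝ} {g : ℝ → ℝ} (hg : Continuous g) (hκ : 0 < κ) (hsc : SC κ w g)
    {m : ℝ} (hm : m ∈ Icc (0:ℝ) w) :
    ∃ z ∈ Icc (0:ℝ) (w - m), RR w g m ≤ g z ∧ RR w g m ≤ g (z + m) ∧
      ∀ x ∈ Icc (0:ℝ) w, RR w g m ≤ g x → z ≤ x ∧ x ≤ z + m := by
  obtain ⟨z, hz, hzm⟩ := rb_attained hg hm
  have hz1 : RR w g m ≤ g z := hzm ▸ min_le_left _ _
  have hz2 : RR w g m ≤ g (z + m) := hzm ▸ min_le_right _ _
  have hzw : z ∈ Icc (0:ℝ) w := ⟨hz.1, by linarith [hz.2, hm.1]⟩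
  have hzmw : z + m ∈ Icc (0:ℝ) w := ⟨by linarith [hz.1, hm.1], by linarith [hz.2]⟩
  refine ⟨z, hz, hz1, hz2, fun x hx hxl => ⟨?_, ?_⟩⟩
  · by_contra hlt
    push Not at hlt
    have hz' : (x + z) / 2 ∈ Icc (0:ℝ) (w - m) := ⟨by linarith [hx.1, hz.1], by linarith [hz.2]⟩
    have e1 := rb_strict hκ hsc hx hzw (u := (x + z) / 2) (by linarith) (by linarith) hxl hz1
    have e2 := rb_strict hκ hsc hx hzmw (u := (x + z) / 2 + m) (by linarith [hm.1]) (by linarith)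
      hxl hz2
    have e3 := rb_le hg hm hz'
    exact absurd (lt_min e1 e2) (not_lt.2 e3)
  · by_contra hlt
    push Not at hlt
    have hz' : (x - m + z) / 2 ∈ Icc (0:ℝ) (w - m) := ⟨by linarith [hx.1, hz.1, hm.1], by linarith [hz.2, hx.2]⟩
    have e1 := rb_strict hκ hsc hzw hx (u := (x - m + z) / 2) (by linarith) (by linarith [hm.1]) hz1 hxl
    have e2 := rb_strict hκ hsc hzmw hx (u := (x - m + z) / 2 + m) (by linarith) (by linarith)
      hz2 hxl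
    have e3 := rb_le hg hm hz'
    exact absurd (lt_min e1 e2) (not_lt.2 e3)

private theorem rb_anti {w κ : ℝ} {g : ℝ → ℝ} (hg : Continuous g) (hκ : 0 < κ) (hsc : SC κ w g)
    {m₀ m₁ : ℝ} (h0 : m₀ ∈ Icc (0:ℝ) w) (h1 : m₁ ∈ Icc (0:ℝ) w) (h : m₀ < m₁) :
    RR w g m₁ ≤ RR w g m₀ := by
  obtain ⟨z, hz, hz1, hz2, -⟩ := rb_level hg hκ hsc h1
  have hz' : z ∈ Icc (0:ℝ) (w - m₀) := ⟨hz.1, by linarith [hz.2]⟩
  refine le_trans (le_min hz1 ?_) (rb_le hg h0 hz')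
  rcases eq_or_lt_of_le h0.1 with e | e
  · rw [← e, add_zero]; exact hz1
  · exact (rb_strict hκ hsc (x := z) (y := z + m₁) ⟨hz.1, by linarith [hz.2, h1.1]⟩
      ⟨by linarith [hz.1, h1.1], by linarith [hz.2]⟩ (by linarith) (by linarith) hz1 hz2).le

private theorem rb_lim {c D : ℝ} (hc : 0 ≤ c) (h : ∀ s : ℝ, 0 < s → s < 1 → c * s < D) : c ≤ D := by
  by_contra hcon
  push Not at hcon
  have hD : 0 < D := lt_of_le_of_lt (by positivity) (h (1/2) (by norm_num) (by norm_num))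
  have hc0 : 0 < c := lt_trans hD hcon
  have := h (D / c) (div_pos hD hc0) ((div_lt_one hc0).2 hcon)
  rw [mul_div_cancel₀ _ hc0.ne'] at this
  exact lt_irrefl _ this

/-- the numerical core -/
private theorem rb_core {w κ : ℝ} {g : ℝ → ℝ} (hκ : 0 < κ) (hsc : SC κ w g)
    {a₀ a₁ b₀ b₁ l₀ l₁ t : ℝ} (ha1 : 0 ≤ a₁) (ha : a₁ < a₀) (hab : a₀ ≤ b₀) (hb : b₀ ≤ b₁)
    (hbw : b₁ ≤ w) (ga0 : l₀ ≤ g a₀) (ga1 : l₁ ≤ g a₁) (gb0 : l₀ ≤ g b₀) (gb1 : l₁ ≤ g b₁)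
    (hD : κ / 2 * (a₀ - a₁) ^ 2 ≤ l₀ - l₁) (hpr : b₁ - b₀ ≤ a₀ - a₁) (ht0 : 0 < t) (ht1 : t < 1) :
    ∃ u v : ℝ, 0 ≤ u ∧ v ≤ w ∧ v - u = t * (b₀ - a₀) + (1 - t) * (b₁ - a₁) ∧
      t * l₀ + (1 - t) * l₁ + κ / 12 / 2 * (t * (1 - t)) * ((a₀ - a₁) + (b₁ - b₀)) ^ 2 ≤ g u ∧
      t * l₀ + (1 - t) * l₁ + κ / 12 / 2 * (t * (1 - t)) * ((a₀ - a₁) + (b₁ - b₀)) ^ 2 ≤ g v := by
  obtain ⟨p, hp⟩ : ∃ p, p = a₀ - a₁ := ⟨_, rfl⟩
  obtain ⟨r, hr⟩ : ∃ r, r = b₁ - b₀ := ⟨_, rfl⟩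
  obtain ⟨D, hDd⟩ : ∃ D, D = l₀ - l₁ := ⟨_, rfl⟩
  have hp0 : 0 < p := by rw [hp]; linarith
  have hr0 : 0 ≤ r := by rw [hr]; linarith
  have hrp : r ≤ p := by rw [hr, hp]; exact hpr
  rw [← hp, ← hr]
  rw [← hp, ← hDd] at hD
  have hD0 : 0 < D := lt_of_lt_of_le (by positivity) hD
  have htt : 0 < t * (1 - t) := mul_pos ht0 (by linarith)
  obtain ⟨e, he⟩ : ∃ e, e = κ * p ^ 2 * (t * (1 - t)) / (6 * D) := ⟨_, rfl⟩
  have he0 : 0 ≤ e := by rw [he]; positivity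
  have heD : e * D = κ * p ^ 2 * (t * (1 - t)) / 6 := by
    rw [he]; field_simp
  have he1 : e ≤ t * (1 - t) / 3 := by
    rw [he, div_le_iff₀ (by positivity)]
    nlinarith [mul_le_mul_of_nonneg_left hD htt.le]
  obtain ⟨q, hq⟩ : ∃ q, q = r / p := ⟨_, rfl⟩
  have hqp : q * p = r := by rw [hq]; exact div_mul_cancel₀ _ hp0.ne'
  have hq0 : 0 ≤ q := by rw [hq]; positivity
  have hq1 : q ≤ 1 := by rw [hq]; exact (div_le_one hp0).2 hrp
  obtain ⟨φ, hφ⟩ : ∃ φ, φ = t + e := ⟨_, rfl⟩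
  obtain ⟨θ, hθ⟩ : ∃ θ, θ = t - e * q := ⟨_, rfl⟩
  have heq : e * q ≤ e := by nlinarith
  have heq0 : 0 ≤ e * q := mul_nonneg he0 hq0
  have hφ0 : 0 ≤ φ := by rw [hφ]; positivity
  have hφ1 : φ ≤ 1 := by rw [hφ]; nlinarith
  have hθ0 : 2 / 3 * t ≤ θ := by rw [hθ]; nlinarith
  have hθ1 : θ ≤ t := by rw [hθ]; linarith
  have hsum : (p + r) ^ 2 ≤ 4 * p ^ 2 := by nlinarith
  have hgain : κ / 12 / 2 * (t * (1 - t)) * (p + r) ^ 2 ≤ κ * p ^ 2 * (t * (1 - t)) / 6 := by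
    have h0 : 0 ≤ κ / 12 / 2 * (t * (1 - t)) := by positivity
    have h1 := mul_le_mul_of_nonneg_left hsum h0
    have h2 : κ / 12 / 2 * (t * (1 - t)) * (4 * p ^ 2) = κ * p ^ 2 * (t * (1 - t)) / 6 := by ring
    linarith
  have hb1w : b₁ ∈ Icc (0:ℝ) w := ⟨by linarith, hbw⟩
  have hb0w : b₀ ∈ Icc (0:ℝ) w := ⟨by linarith, by linarith⟩
  have ha1w : a₁ ∈ Icc (0:ℝ) w := ⟨ha1, by linarith⟩
  have ha0w : a₀ ∈ Icc (0:ℝ) w := ⟨by linarith, by linarith⟩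
  refine ⟨θ * a₀ + (1 - θ) * a₁, φ * b₀ + (1 - φ) * b₁, ?_, ?_, ?_, ?_, ?_⟩
  · have h1 : 0 ≤ θ * a₀ := mul_nonneg (by linarith [ht0.le]) (by linarith)
    have h2 : 0 ≤ (1 - θ) * a₁ := mul_nonneg (by linarith) ha1
    linarith
  · have h1 : φ * b₀ ≤ φ * w := mul_le_mul_of_nonneg_left hb0w.2 hφ0
    have h2 : (1 - φ) * b₁ ≤ (1 - φ) * w := mul_le_mul_of_nonneg_left hbw (by linarith)
    linarith
  · have hpe : a₀ = a₁ + p := by rw [hp]; ring
    have hre : b₀ = b₁ - r := by rw [hr]; ring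
    rw [hpe, hre, hφ, hθ, ← hqp]
    ring
  · have h := hsc a₀ ha0w a₁ ha1w θ ⟨by linarith [ht0.le], by linarith⟩
    rw [← hp] at h
    have h1 : θ * l₀ ≤ θ * g a₀ := mul_le_mul_of_nonneg_left ga0 (by linarith [ht0.le])
    have h2 : (1 - θ) * l₁ ≤ (1 - θ) * g a₁ := mul_le_mul_of_nonneg_left ga1 (by linarith)
    have h3 : 2 / 3 * (t * (1 - t)) ≤ θ * (1 - θ) := by
      have : (2 / 3 * t) * (1 - t) ≤ θ * (1 - θ) :=
        mul_le_mul hθ0 (by linarith) (by linarith) (by linarith [ht0.le])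
      linarith
    have h4 : κ / 2 * (2 / 3 * (t * (1 - t))) * p ^ 2 ≤ κ / 2 * (θ * (1 - θ)) * p ^ 2 := by
      apply mul_le_mul_of_nonneg_right _ (by positivity)
      exact mul_le_mul_of_nonneg_left h3 (by positivity)
    have h5 : e * q * D ≤ e * D := mul_le_mul_of_nonneg_right heq hD0.le
    have h6 : θ * l₀ + (1 - θ) * l₁ = t * l₀ + (1 - t) * l₁ - e * q * D := by
      rw [hθ, hDd]; ring
    have h7 : κ / 2 * (2 / 3 * (t * (1 - t))) * p ^ 2 = 2 * (κ * p ^ 2 * (t * (1 - t)) / 6) := by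
      ring
    linarith
  · have h := hsc b₀ hb0w b₁ hb1w φ ⟨hφ0, hφ1⟩
    have h1 : φ * l₀ ≤ φ * g b₀ := mul_le_mul_of_nonneg_left gb0 hφ0
    have h2 : (1 - φ) * l₁ ≤ (1 - φ) * g b₁ := mul_le_mul_of_nonneg_left gb1 (by linarith)
    have h3 : 0 ≤ κ / 2 * (φ * (1 - φ)) * (b₀ - b₁) ^ 2 := by
      have : 0 ≤ φ * (1 - φ) := mul_nonneg hφ0 (by linarith)
      positivity
    have h6 : φ * l₀ + (1 - φ) * l₁ = t * l₀ + (1 - t) * l₁ + e * D := by
      rw [hφ, hDd]; ring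
    linarith

private theorem rb_lt {w κ : ℝ} {g : ℝ → ℝ} (hg : Continuous g) (hκ : 0 < κ) (hsc : SC κ w g)
    {m₀ m₁ t : ℝ} (h0 : m₀ ∈ Icc (0:ℝ) w) (h1 : m₁ ∈ Icc (0:ℝ) w) (h : m₀ < m₁) (ht0 : 0 < t)
    (ht1 : t < 1) :
    t * RR w g m₀ + (1 - t) * RR w g m₁ + κ / 12 / 2 * (t * (1 - t)) * (m₁ - m₀) ^ 2 ≤
      RR w g (t * m₀ + (1 - t) * m₁) := by
  obtain ⟨z₀, hz0, g01, g02, lev0⟩ := rb_level hg hκ hsc h0
  obtain ⟨z₁, hz1, g11, g12, lev1⟩ := rb_level hg hκ hsc h1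
  have hanti := rb_anti hg hκ hsc h0 h1 h
  obtain ⟨l₀, hl0⟩ : ∃ l, l = RR w g m₀ := ⟨_, rfl⟩
  obtain ⟨l₁, hl1⟩ : ∃ l, l = RR w g m₁ := ⟨_, rfl⟩
  rw [← hl0] at g01 g02 lev0 hanti ⊢
  rw [← hl1] at g11 g12 lev1 hanti ⊢
  have iz0 : z₀ ∈ Icc (0:ℝ) w := ⟨hz0.1, by linarith [hz0.2, h0.1]⟩
  have iz1 : z₁ ∈ Icc (0:ℝ) w := ⟨hz1.1, by linarith [hz1.2, h1.1]⟩
  have ib0 : z₀ + m₀ ∈ Icc (0:ℝ) w := ⟨by linarith [hz0.1, h0.1], by linarith [hz0.2]⟩
  have ib1 : z₁ + m₁ ∈ Icc (0:ℝ) w := ⟨by linarith [hz1.1, h1.1], by linarith [hz1.2]⟩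
  have ha := (lev1 z₀ iz0 (hanti.trans g01)).1
  have hb := (lev1 (z₀ + m₀) ib0 (hanti.trans g02)).2
  -- the two quadratic bounds
  have hDp : κ / 2 * (z₀ - z₁) ^ 2 ≤ l₀ - l₁ := by
    rcases eq_or_lt_of_le ha with e | e
    · rw [e]; simpa using hanti
    · apply rb_lim (by positivity)
      intro s hs0 hs1
      have hu := hsc z₀ iz0 z₁ iz1 s ⟨hs0.le, hs1.le⟩
      have hlt : g (s * z₀ + (1 - s) * z₁) < l₀ := by
        by_contra hcon
        push Not at hcon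
        have hin : s * z₀ + (1 - s) * z₁ ∈ Icc (0:ℝ) w := by
          constructor
          · have := mul_nonneg hs0.le iz0.1
            have := mul_nonneg (sub_nonneg.2 hs1.le) iz1.1
            linarith
          · have := mul_le_mul_of_nonneg_left iz0.2 hs0.le
            have := mul_le_mul_of_nonneg_left iz1.2 (sub_nonneg.2 hs1.le)
            linarith
        have := (lev0 _ hin hcon).1
        nlinarith
      have k1 : s * l₀ ≤ s * g z₀ := mul_le_mul_of_nonneg_left g01 hs0.le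
      have k2 : (1 - s) * l₁ ≤ (1 - s) * g z₁ := mul_le_mul_of_nonneg_left g11 (by linarith)
      have k3 : (1 - s) * (κ / 2 * (z₀ - z₁) ^ 2 * s) < (1 - s) * (l₀ - l₁) := by nlinarith
      exact lt_of_mul_lt_mul_left k3 (by linarith)
  have hDr : κ / 2 * ((z₁ + m₁) - (z₀ + m₀)) ^ 2 ≤ l₀ - l₁ := by
    rcases eq_or_lt_of_le hb with e | e
    · rw [e]; simpa using hanti
    · apply rb_lim (by positivity)
      intro s hs0 hs1
      have hu := hsc (z₀ + m₀) ib0 (z₁ + m₁) ib1 s ⟨hs0.le, hs1.le⟩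
      have hlt : g (s * (z₀ + m₀) + (1 - s) * (z₁ + m₁)) < l₀ := by
        by_contra hcon
        push Not at hcon
        have hin : s * (z₀ + m₀) + (1 - s) * (z₁ + m₁) ∈ Icc (0:ℝ) w := by
          constructor
          · have := mul_nonneg hs0.le ib0.1
            have := mul_nonneg (sub_nonneg.2 hs1.le) ib1.1
            linarith
          · have := mul_le_mul_of_nonneg_left ib0.2 hs0.le
            have := mul_le_mul_of_nonneg_left ib1.2 (sub_nonneg.2 hs1.le)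
            linarith
        have := (lev0 _ hin hcon).2
        nlinarith
      have k1 : s * l₀ ≤ s * g (z₀ + m₀) := mul_le_mul_of_nonneg_left g02 hs0.le
      have k2 : (1 - s) * l₁ ≤ (1 - s) * g (z₁ + m₁) :=
        mul_le_mul_of_nonneg_left g12 (by linarith)
      have k3 : (1 - s) * (κ / 2 * ((z₁ + m₁) - (z₀ + m₀)) ^ 2 * s) < (1 - s) * (l₀ - l₁) := by
        nlinarith
      exact lt_of_mul_lt_mul_left k3 (by linarith)
  -- conclude
  have hmm : t * m₀ + (1 - t) * m₁ ∈ Icc (0:ℝ) w := by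
    constructor
    · have := mul_nonneg ht0.le h0.1
      have := mul_nonneg (sub_nonneg.2 ht1.le) h1.1
      linarith
    · have := mul_le_mul_of_nonneg_left h0.2 ht0.le
      have := mul_le_mul_of_nonneg_left h1.2 (sub_nonneg.2 ht1.le)
      linarith
  have key : ∃ u v : ℝ, 0 ≤ u ∧ v ≤ w ∧ v - u = t * m₀ + (1 - t) * m₁ ∧
      t * l₀ + (1 - t) * l₁ + κ / 12 / 2 * (t * (1 - t)) * (m₁ - m₀) ^ 2 ≤ g u ∧
      t * l₀ + (1 - t) * l₁ + κ / 12 / 2 * (t * (1 - t)) * (m₁ - m₀) ^ 2 ≤ g v := by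
    rcases le_total ((z₁ + m₁) - (z₀ + m₀)) (z₀ - z₁) with hc | hc
    · have hlt : z₁ < z₀ := by linarith
      obtain ⟨u, v, hu, hv, huv, gu, gv⟩ := rb_core hκ hsc (a₀ := z₀) (a₁ := z₁) (b₀ := z₀ + m₀)
        (b₁ := z₁ + m₁) (l₀ := l₀) (l₁ := l₁) (t := t) hz1.1 hlt (by linarith [h0.1]) hb ib1.2
        g01 g11 g02 g12 hDp hc ht0 ht1
      refine ⟨u, v, hu, hv, by rw [huv]; ring, ?_, ?_⟩
      · have : (z₀ - z₁ + (z₁ + m₁ - (z₀ + m₀))) = m₁ - m₀ := by ring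
        rw [this] at gu; exact gu
      · have : (z₀ - z₁ + (z₁ + m₁ - (z₀ + m₀))) = m₁ - m₀ := by ring
        rw [this] at gv; exact gv
    · have hlt : z₀ + m₀ < z₁ + m₁ := by linarith
      have hsc' : SC κ w (fun x => g (w - x)) := by
        intro x hx y hy s hs
        have := hsc (w - x) ⟨by linarith [hx.2], by linarith [hx.1]⟩ (w - y)
          ⟨by linarith [hy.2], by linarith [hy.1]⟩ s hs
        have e1 : s * (w - x) + (1 - s) * (w - y) = w - (s * x + (1 - s) * y) := by ring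
        rw [e1] at this
        have e2 : (w - x - (w - y)) ^ 2 = (x - y) ^ 2 := by ring
        rw [e2] at this
        exact this
      obtain ⟨u, v, hu, hv, huv, gu, gv⟩ := rb_core hκ hsc' (a₀ := w - (z₀ + m₀))
        (a₁ := w - (z₁ + m₁)) (b₀ := w - z₀)
        (b₁ := w - z₁) (l₀ := l₀) (l₁ := l₁) (t := t) (by linarith [ib1.2]) (by linarith)
        (by linarith [h0.1]) (by linarith) (by linarith [iz1.1])
        (by simpa using g02) (by simpa using g12) (by simpa using g01) (by simpa using g11)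
        (by
          have e2 : (w - (z₀ + m₀) - (w - (z₁ + m₁))) ^ 2 = ((z₁ + m₁) - (z₀ + m₀)) ^ 2 := by ring
          rw [e2]; exact hDr) (by linarith) ht0 ht1
      refine ⟨w - v, w - u, by linarith, by linarith, by linarith, ?_, ?_⟩
      · have : (w - (z₀ + m₀) - (w - (z₁ + m₁)) + (w - z₁ - (w - z₀))) = m₁ - m₀ := by ring
        rw [this] at gv; exact gv
      · have : (w - (z₀ + m₀) - (w - (z₁ + m₁)) + (w - z₁ - (w - z₀))) = m₁ - m₀ := by ring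
        rw [this] at gu; exact gu
  obtain ⟨u, v, hu, hv, huv, gu, gv⟩ := key
  have hle := rb_le hg hmm (z := u) ⟨hu, by linarith⟩
  have hv' : u + (t * m₀ + (1 - t) * m₁) = v := by linarith
  rw [hv'] at hle
  exact (le_min gu gv).trans hle

theorem RR_SC {w κ : ℝ} {g : ℝ → ℝ} (hg : Continuous g) (hκ : 0 < κ) (hsc : SC κ w g) :
    SC (κ / 12) w (RR w g) := by
  intro x hx y hy t ht
  rcases eq_or_lt_of_le ht.1 with e0 | e0
  · rw [← e0]; simp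
  rcases eq_or_lt_of_le ht.2 with e1 | e1
  · rw [e1]; simp
  rcases lt_trichotomy x y with hxy | hxy | hxy
  · have := rb_lt hg hκ hsc hx hy hxy e0 e1
    have e : (x - y) ^ 2 = (y - x) ^ 2 := by ring
    rw [e]; exact this
  · rw [hxy]
    have e : t * y + (1 - t) * y = y := by ring
    rw [e]
    have : t * RR w g y + (1 - t) * RR w g y + κ / 12 / 2 * (t * (1 - t)) * (y - y) ^ 2 = RR w g y := by
      ring
    exact this.le
  · have := rb_lt hg hκ hsc hy hx hxy (t := 1 - t) (by linarith) (by linarith)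
    have e : (1 - t) * y + (1 - (1 - t)) * x = t * x + (1 - t) * y := by ring
    rw [e] at this
    refine le_trans (le_of_eq ?_) this
    ring

end Pool.Agent.Lib.MP_e55421_gt
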